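import Pool.Agent.Y417.BC.Choose

/-!
# The terms of the second moment
-/

set_option autoImplicit false
open Finset Filter Topology

namespace Pool.Agent.Y417.BC

theorem two_choose (j : ℕ) : 2 * j.choose 2 = j * (j - 1) := by
  rw [Nat.choose_two_right]
  exact Nat.mul_div_cancel' (Nat.even_mul_pred_self j).two_dvd

/-- small intersections -/
theorem termA (ρ R x : ℝ) (N c j : ℕ) (hρ : 0 < ρ) (hρ1 : ρ < 1) (hR : R * ρ ^ (2 * c) = 1)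
    (hx : 0 ≤ x) (hj : j ≤ c) (hN : R / 4 ≤ ((N - 2 * c : ℕ) : ℝ)) :
    (((2 * c).choose j : ℕ) : ℝ) * ((N.choose (2 * c - j) : ℕ) : ℝ) * (((ρ ^ 2) ^ (j.choose 2))⁻¹) * x ^ j
      ≤ ((N.choose (2 * c) : ℕ) : ℝ) * (4 * (2 * (c : ℝ)) ^ 2 * ρ ^ c * x) ^ j := by
  set b := 2 * c with hb
  have hRpos : 0 < R := by
    by_contra h
    push Not at h
    have : R * ρ ^ b ≤ 0 := mul_nonpos_of_nonpos_of_nonneg h (by positivity)
    linarith
  have h1 : (((b).choose j : ℕ) : ℝ) ≤ (b : ℝ) ^ j := by exact_mod_cast Nat.choose_le_pow b j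
  have h2 : ((N.choose (b - j) : ℕ) : ℝ) * (R / 4) ^ j ≤ (b : ℝ) ^ j * ((N.choose b : ℕ) : ℝ) := by
    have h := choose_down N b j (by omega)
    have h' : ((N.choose (b - j) : ℕ) : ℝ) * (((N - b : ℕ) : ℝ)) ^ j
        ≤ (b : ℝ) ^ j * ((N.choose b : ℕ) : ℝ) := by exact_mod_cast h
    refine le_trans ?_ h'
    gcongr
  have h3 : ((N.choose (b - j) : ℕ) : ℝ) ≤ ((N.choose b : ℕ) : ℝ) * (4 * b * ρ ^ b) ^ j := by
    have hR4 : 0 < (R / 4) ^ j := by positivity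
    refine le_of_mul_le_mul_right (h2.trans (le_of_eq ?_)) hR4
    have : (4 * (b : ℝ) * ρ ^ b) ^ j * (R / 4) ^ j = (b : ℝ) ^ j := by
      rw [← mul_pow]
      congr 1
      calc 4 * (b : ℝ) * ρ ^ b * (R / 4) = b * (R * ρ ^ b) := by ring
        _ = b := by rw [hR, mul_one]
    rw [mul_assoc, this]
    ring
  have h4 : ((ρ ^ 2) ^ (j.choose 2))⁻¹ ≤ ((ρ ^ c) ^ j)⁻¹ := by
    apply inv_anti₀ (by positivity)
    rw [← pow_mul, ← pow_mul, two_choose]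
    apply pow_le_pow_of_le_one hρ.le hρ1.le
    calc j * (j - 1) ≤ j * c := Nat.mul_le_mul_left _ (by omega)
      _ = c * j := Nat.mul_comm _ _
  have hbc : (b : ℝ) = 2 * (c : ℝ) := by rw [hb]; push_cast; ring
  calc (((b).choose j : ℕ) : ℝ) * ((N.choose (b - j) : ℕ) : ℝ) * ((ρ ^ 2) ^ (j.choose 2))⁻¹ * x ^ j
      ≤ (b : ℝ) ^ j * (((N.choose b : ℕ) : ℝ) * (4 * b * ρ ^ b) ^ j) * ((ρ ^ c) ^ j)⁻¹ * x ^ j := by
        gcongr
    _ = ((N.choose b : ℕ) : ℝ) * (((b : ℝ) * (4 * b * ρ ^ b)) ^ j * ((ρ ^ c) ^ j)⁻¹ * x ^ j) := by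
        rw [mul_pow]; ring
    _ = ((N.choose b : ℕ) : ℝ) * (4 * (2 * (c : ℝ)) ^ 2 * ρ ^ c * x) ^ j := by
        rw [← inv_pow, ← mul_pow, ← mul_pow, ← hbc]
        congr 2
        have : ρ ^ b = ρ ^ c * ρ ^ c := by rw [hb, ← pow_add]; congr 1; ring
        rw [this]
        field_simp

/-- large intersections -/
theorem termB (ρ R x : ℝ) (N c i : ℕ) (hρ : 0 < ρ) (hρ1 : ρ < 1) (hR : R * ρ ^ (2 * c) = 1)
    (hx : 1 ≤ x) (hi : i ≤ c) (hc : 1 ≤ c) (hN : (N : ℝ) ≤ 2 * (2 * (c : ℝ) + 1) * R) :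
    (((2 * c).choose (2 * c - i) : ℕ) : ℝ) * ((N.choose (2 * c - (2 * c - i)) : ℕ) : ℝ) *
      (((ρ ^ 2) ^ ((2 * c - i).choose 2))⁻¹) * x ^ (2 * c - i)
      ≤ R ^ (2 * c - 1) * x ^ (2 * c) * (2 * (2 * (c : ℝ)) * (2 * (c : ℝ) + 1) * ρ ^ (c - 1)) ^ i := by
  set b := 2 * c with hb
  have hRpos : 0 < R := by
    by_contra h
    push Not at h
    have : R * ρ ^ b ≤ 0 := mul_nonpos_of_nonpos_of_nonneg h (by positivity)
    linarith
  have hbi : b - (b - i) = i := by omega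
  rw [hbi, Nat.choose_symm (by omega : i ≤ b)]
  have hbc : (b : ℝ) = 2 * (c : ℝ) := by rw [hb]; push_cast; ring
  have h1 : ((b.choose i : ℕ) : ℝ) ≤ (b : ℝ) ^ i := by exact_mod_cast Nat.choose_le_pow b i
  have h2 : ((N.choose i : ℕ) : ℝ) ≤ (2 * ((b : ℝ) + 1) * R) ^ i := by
    have : ((N.choose i : ℕ) : ℝ) ≤ (N : ℝ) ^ i := by exact_mod_cast Nat.choose_le_pow N i
    refine this.trans ?_
    rw [hbc]
    gcongr
  have h3 : ((ρ ^ 2) ^ ((b - i).choose 2))⁻¹ ≤ R ^ (b - 1) * (ρ ^ (3 * c - 1)) ^ i := by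
    rw [← pow_mul, two_choose]
    have e1 : R ^ (b - 1) * ρ ^ (b * (b - 1)) = 1 := by
      rw [pow_mul, ← mul_pow, hR, one_pow]
    rw [inv_le_iff_one_le_mul₀ (by positivity)]
    have e2 : (b - i) * (b - i - 1) + (3 * c - 1) * i ≤ b * (b - 1) := by
      obtain ⟨d, hd⟩ : ∃ d, c = i + d := ⟨c - i, by omega⟩
      rcases Nat.eq_zero_or_pos i with h0 | h0
      · subst h0
        simp
      · obtain ⟨i', rfl⟩ : ∃ i', i = i' + 1 := ⟨i - 1, by omega⟩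
        have a1 : b - (i' + 1) = i' + 1 + 2 * d := by omega
        have a2 : b - (i' + 1) - 1 = i' + 2 * d := by omega
        have a3 : 3 * c - 1 = 3 * i' + 3 * d + 2 := by omega
        have a4 : b - 1 = 2 * i' + 2 * d + 1 := by omega
        have a5 : b = 2 * i' + 2 * d + 2 := by omega
        rw [a4, a2, a1, a3, a5]
        nlinarith
    calc (1 : ℝ) = R ^ (b - 1) * ρ ^ (b * (b - 1)) := e1.symm
      _ ≤ R ^ (b - 1) * ρ ^ ((b - i) * (b - i - 1) + (3 * c - 1) * i) := by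
          have := pow_le_pow_of_le_one hρ.le hρ1.le e2
          gcongr
      _ = R ^ (b - 1) * (ρ ^ (3 * c - 1)) ^ i * ρ ^ ((b - i) * (b - i - 1)) := by
          rw [pow_add, ← pow_mul]
          ring
  have h4 : x ^ (b - i) ≤ x ^ b := pow_le_pow_right₀ hx (by omega)
  calc ((b.choose i : ℕ) : ℝ) * ((N.choose i : ℕ) : ℝ) * ((ρ ^ 2) ^ ((b - i).choose 2))⁻¹ * x ^ (b - i)
      ≤ (b : ℝ) ^ i * (2 * ((b : ℝ) + 1) * R) ^ i * (R ^ (b - 1) * (ρ ^ (3 * c - 1)) ^ i) * x ^ b := by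
        gcongr
    _ = R ^ (b - 1) * x ^ b * ((b : ℝ) * (2 * ((b : ℝ) + 1) * R) * ρ ^ (3 * c - 1)) ^ i := by
        rw [mul_pow ((b : ℝ) * (2 * ((b : ℝ) + 1) * R)) (ρ ^ (3 * c - 1)) i,
          mul_pow (b : ℝ) (2 * ((b : ℝ) + 1) * R) i]
        ring
    _ = R ^ (b - 1) * x ^ b * (2 * (2 * (c : ℝ)) * (2 * (c : ℝ) + 1) * ρ ^ (c - 1)) ^ i := by
        congr 2
        have : ρ ^ (3 * c - 1) = ρ ^ b * ρ ^ (c - 1) := by
          rw [← pow_add]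
          congr 1
          omega
        rw [this, ← hbc]
        calc (b : ℝ) * (2 * ((b : ℝ) + 1) * R) * (ρ ^ b * ρ ^ (c - 1))
            = 2 * b * (b + 1) * ρ ^ (c - 1) * (R * ρ ^ b) := by ring
          _ = _ := by rw [hR, mul_one]

theorem term_le (ρ R x β : ℝ) (N c j : ℕ) (hρ : 0 < ρ) (hρ1 : ρ < 1) (hR : R * ρ ^ (2 * c) = 1)
    (hx : 1 ≤ x) (hx2 : x ≤ 2) (hj : j ≤ 2 * c) (hc : 1 ≤ c) (hN1 : R / 4 ≤ ((N - 2 * c : ℕ) : ℝ))
    (hN : (N : ℝ) ≤ 2 * (2 * (c : ℝ) + 1) * R) (hβ : 8 * (2 * (c : ℝ) + 1) ^ 2 * ρ ^ (c - 1) ≤ β)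
    (hβ1 : β ≤ 1) :
    (((2 * c).choose j : ℕ) : ℝ) * ((N.choose (2 * c - j) : ℕ) : ℝ) * (((ρ ^ 2) ^ (j.choose 2))⁻¹) * x ^ j
      ≤ ((N.choose (2 * c) : ℕ) : ℝ) * ((if j = 0 then 1 else 0) + β)
        + R ^ (2 * c - 1) * x ^ (2 * c) * ((if j = 2 * c then 1 else 0) + β) := by
  have hRpos : 0 < R := by
    by_contra h
    push Not at h
    have : R * ρ ^ (2 * c) ≤ 0 := mul_nonpos_of_nonpos_of_nonneg h (by positivity)
    linarith
  have hβ0 : 0 ≤ β := le_trans (by positivity) hβ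
  have hρc : ρ ^ c ≤ ρ ^ (c - 1) := pow_le_pow_of_le_one hρ.le hρ1.le (by omega)
  have hpow : ∀ (y : ℝ) (k : ℕ), 0 ≤ y → y ≤ β → y ^ k ≤ (if k = 0 then 1 else 0) + β := by
    intro y k hy0 hy
    rcases Nat.eq_zero_or_pos k with h | h
    · subst h
      simp only [pow_zero, if_true]
      linarith
    · rw [if_neg (by omega), zero_add]
      have : y ^ k ≤ y ^ 1 := pow_le_pow_of_le_one hy0 (by linarith) h
      rw [pow_one] at this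
      linarith
  rcases Nat.lt_or_ge c j with hlt | hge
  · -- large
    obtain ⟨i, hi, rfl⟩ : ∃ i, i ≤ c ∧ j = 2 * c - i := ⟨2 * c - j, by omega, by omega⟩
    have h := termB ρ R x N c i hρ hρ1 hR hx hi hc hN
    refine h.trans ?_
    have h2 := hpow (2 * (2 * (c : ℝ)) * (2 * (c : ℝ) + 1) * ρ ^ (c - 1)) i (by positivity) (by
      refine le_trans ?_ hβ
      have hcc : (0 : ℝ) ≤ (c : ℝ) := Nat.cast_nonneg c
      have : 2 * (2 * (c : ℝ)) * (2 * (c : ℝ) + 1) ≤ 8 * (2 * (c : ℝ) + 1) ^ 2 := by nlinarith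
      exact mul_le_mul_of_nonneg_right this (by positivity))
    have h3 : (if i = 0 then (1 : ℝ) else 0) = (if 2 * c - i = 2 * c then (1 : ℝ) else 0) := by
      by_cases h0 : i = 0
      · rw [if_pos h0, if_pos (by omega)]
      · rw [if_neg h0, if_neg (by omega)]
    rw [← h3]
    have h4 : R ^ (2 * c - 1) * x ^ (2 * c) * (2 * (2 * (c : ℝ)) * (2 * (c : ℝ) + 1) * ρ ^ (c - 1)) ^ i
        ≤ R ^ (2 * c - 1) * x ^ (2 * c) * ((if i = 0 then 1 else 0) + β) :=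
      mul_le_mul_of_nonneg_left h2 (by positivity)
    have h5 : 0 ≤ ((N.choose (2 * c) : ℕ) : ℝ) * ((if 2 * c - i = 0 then 1 else 0) + β) := by
      have : (0 : ℝ) ≤ (if 2 * c - i = 0 then (1 : ℝ) else 0) := by split_ifs <;> norm_num
      positivity
    linarith
  · have h := termA ρ R x N c j hρ hρ1 hR (by linarith) hge hN1
    refine h.trans ?_
    have h2 := hpow (4 * (2 * (c : ℝ)) ^ 2 * ρ ^ c * x) j (by positivity) (by
      refine le_trans ?_ hβ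
      have hcc : (0 : ℝ) ≤ (c : ℝ) := Nat.cast_nonneg c
      have h5 : 4 * (2 * (c : ℝ)) ^ 2 * ρ ^ c * x ≤ 4 * (2 * (c : ℝ)) ^ 2 * ρ ^ (c - 1) * 2 := by
        gcongr
      have h6 : 4 * (2 * (c : ℝ)) ^ 2 * 2 ≤ 8 * (2 * (c : ℝ) + 1) ^ 2 := by nlinarith
      calc 4 * (2 * (c : ℝ)) ^ 2 * ρ ^ c * x ≤ 4 * (2 * (c : ℝ)) ^ 2 * ρ ^ (c - 1) * 2 := h5
        _ = 4 * (2 * (c : ℝ)) ^ 2 * 2 * ρ ^ (c - 1) := by ring
        _ ≤ 8 * (2 * (c : ℝ) + 1) ^ 2 * ρ ^ (c - 1) := mul_le_mul_of_nonneg_right h6 (by positivity))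
    have h4 := mul_le_mul_of_nonneg_left h2 (Nat.cast_nonneg (N.choose (2 * c)) : (0 : ℝ) ≤ _)
    have h5 : 0 ≤ R ^ (2 * c - 1) * x ^ (2 * c) * ((if j = 2 * c then 1 else 0) + β) := by
      have : (0 : ℝ) ≤ (if j = 2 * c then (1 : ℝ) else 0) := by split_ifs <;> norm_num
      positivity
    linarith

theorem sum_le (ρ R x β : ℝ) (N c : ℕ) (hρ : 0 < ρ) (hρ1 : ρ < 1) (hR : R * ρ ^ (2 * c) = 1)
    (hx : 1 ≤ x) (hx2 : x ≤ 2) (hc : 1 ≤ c) (hN1 : R / 4 ≤ ((N - 2 * c : ℕ) : ℝ))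
    (hN : (N : ℝ) ≤ 2 * (2 * (c : ℝ) + 1) * R) (hβ : 8 * (2 * (c : ℝ) + 1) ^ 2 * ρ ^ (c - 1) ≤ β)
    (hβ1 : β ≤ 1) :
    ∑ j ∈ Finset.range (2 * c + 1),
      (((2 * c).choose j : ℕ) : ℝ) * ((N.choose (2 * c - j) : ℕ) : ℝ) * (((ρ ^ 2) ^ (j.choose 2))⁻¹) * x ^ j
      ≤ (1 + (2 * (c : ℝ) + 1) * β) *
        (((N.choose (2 * c) : ℕ) : ℝ) + R ^ (2 * c - 1) * x ^ (2 * c)) := by
  refine (Finset.sum_le_sum (fun j hj => term_le ρ R x β N c j hρ hρ1 hR hx hx2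
    (by rw [Finset.mem_range] at hj; omega) hc hN1 hN hβ hβ1)).trans (le_of_eq ?_)
  rw [Finset.sum_add_distrib, ← Finset.mul_sum, ← Finset.mul_sum, Finset.sum_add_distrib,
    Finset.sum_add_distrib, Finset.sum_ite_eq', Finset.sum_ite_eq', if_pos (by simp), if_pos (by simp),
    Finset.sum_const, Finset.card_range, nsmul_eq_mul]
  push_cast
  ring

end Pool.Agent.Y417.BC
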