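import Pool.Agent.Y417.BC.Upper
import Pool.Agent.Y417.BC.Terms

/-!
# The main estimate
-/

set_option autoImplicit false
open scoped Classical
open Finset Filter Topology

namespace Pool.Agent.Y417.BC

open Pool.Agent.W839.Ch

/-- the main estimate, with all smallness conditions as hypotheses -/
theorem main_bound (p ρ R : ℝ) (c n m N : ℕ) (h0 : 0 < p) (h1 : p < 1) (hpρ : 1 - p = ρ ^ 2)
    (hρ : 0 < ρ) (hρ1 : ρ < 1) (hR : R * ρ ^ (2 * c) = 1) (hc : 1 ≤ c)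
    (hsx1 : 1 ≤ (sS p)⁻¹) (hsx2 : (sS p)⁻¹ ≤ 2) (hτ : 1 ≤ tT p / sS p ^ 2)
    (hn1 : ((n.choose (2 * c + 1) : ℕ) : ℝ) ≤ R ^ (2 * c + 1) / 8)
    (hNn : N + 2 * m = n) (hm : 1 ≤ m)
    (hCN : R ^ (2 * c) / 32 ≤ ((N.choose (2 * c) : ℕ) : ℝ))
    (hN1 : R / 4 ≤ ((N - 2 * c : ℕ) : ℝ))
    (hN2 : (N : ℝ) ≤ 2 * (2 * (c : ℝ) + 1) * R)
    (E1 : (2 * (c : ℝ) + 1) * (8 * (2 * (c : ℝ) + 1) ^ 2 * ρ ^ (c - 1)) ≤ 1 / 100)
    (E2 : 3200 ≤ R)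
    (E3 : 1 / ((1 - p) * (m : ℝ) ^ 2) ≤ 1 / 100)
    (E4 : 1 / ((1 - p) * (m : ℝ) ^ 2) * (32 * (sS p)⁻¹ ^ (2 * c)) ≤ R / 100)
    (E5 : 2 * (tT p / sS p ^ 2) ^ (2 * c) ≤ (m : ℝ) / 100) :
    PP p n ≤ 1 / 2 := by
  have hq : 0 < 1 - p := by linarith
  have hs := sS_pos h1
  have ht := tT_pos h0 h1
  have hRpos : 0 < R := by linarith
  have hmR : (0 : ℝ) < (m : ℝ) := by exact_mod_cast hm
  set b := 2 * c with hb
  set CN : ℝ := ((N.choose b : ℕ) : ℝ) with hCNdef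
  have hCNpos : 0 < CN := lt_of_lt_of_le (by positivity) hCN
  set β : ℝ := 8 * (2 * (c : ℝ) + 1) ^ 2 * ρ ^ (c - 1) with hβ
  have hβ0 : 0 ≤ β := by positivity
  set η : ℝ := (2 * (c : ℝ) + 1) * β with hη
  have hη0 : 0 ≤ η := by positivity
  have hβ1 : β ≤ 1 := by
    have hcc : (0 : ℝ) ≤ (c : ℝ) := Nat.cast_nonneg c
    have : β ≤ η := by
      rw [hη]
      nlinarith
    linarith
  -- the sums
  have hS1 := sum_le ρ R 1 β N c hρ hρ1 hR le_rfl (by norm_num) hc hN1 hN2 le_rfl hβ1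
  have hSs := sum_le ρ R (sS p)⁻¹ β N c hρ hρ1 hR hsx1 hsx2 hc hN1 hN2 le_rfl hβ1
  rw [← hb] at hS1 hSs
  simp only [one_pow, mul_one] at hS1
  have hRb : R ^ (b - 1) ≤ CN * (32 / R) := by
    have e : R ^ b = R ^ (b - 1) * R := by
      rw [← pow_succ]
      congr 1
      omega
    rw [e] at hCN
    rw [mul_div_assoc', le_div_iff₀ hRpos]
    linarith
  have hR32 : 32 / R ≤ 1 / 100 := by
    rw [div_le_div_iff₀ hRpos (by norm_num)]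
    linarith
  -- the total sum
  have hτ0 : 0 < tT p / sS p ^ 2 := by positivity
  set τ : ℝ := tT p / sS p ^ 2 with hτd
  have hSig : ∑ j ∈ Finset.range (b + 1),
          ((b.choose j : ℕ) : ℝ) * ((N.choose (b - j) : ℕ) : ℝ) * GG p m j
      ≤ (m : ℝ) ^ 2 / (1 - p) * ((1 + η) * (CN + R ^ (b - 1) * (sS p)⁻¹ ^ b))
        + (2 * (m : ℝ) ^ 3 * τ ^ b + (m : ℝ) ^ 4) * ((1 + η) * (CN + R ^ (b - 1))) := by
    have e1 : ∀ j ∈ Finset.range (b + 1),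
        ((b.choose j : ℕ) : ℝ) * ((N.choose (b - j) : ℕ) : ℝ) * GG p m j
        ≤ (m : ℝ) ^ 2 / (1 - p) * (((b.choose j : ℕ) : ℝ) * ((N.choose (b - j) : ℕ) : ℝ) *
            (((ρ ^ 2) ^ (j.choose 2))⁻¹) * (sS p)⁻¹ ^ j)
          + (2 * (m : ℝ) ^ 3 * τ ^ b + (m : ℝ) ^ 4) * (((b.choose j : ℕ) : ℝ) *
            ((N.choose (b - j) : ℕ) : ℝ) * (((ρ ^ 2) ^ (j.choose 2))⁻¹)) := by
      intro j hj
      rw [Finset.mem_range] at hj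
      have hτj : τ ^ j ≤ τ ^ b := pow_le_pow_right₀ hτ (by omega)
      unfold GG
      rw [← hpρ, ← hτd]
      have e3 : (m : ℝ) ^ 2 * (1 / ((1 - p) * sS p ^ j)) = (m : ℝ) ^ 2 / (1 - p) * (sS p)⁻¹ ^ j := by
        rw [inv_pow]
        field_simp
      rw [e3]
      calc ((b.choose j : ℕ) : ℝ) * ((N.choose (b - j) : ℕ) : ℝ) * (((1 - p) ^ j.choose 2)⁻¹ *
            ((m : ℝ) ^ 2 / (1 - p) * (sS p)⁻¹ ^ j + 2 * (m : ℝ) ^ 3 * τ ^ j + (m : ℝ) ^ 4))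
          ≤ ((b.choose j : ℕ) : ℝ) * ((N.choose (b - j) : ℕ) : ℝ) * (((1 - p) ^ j.choose 2)⁻¹ *
            ((m : ℝ) ^ 2 / (1 - p) * (sS p)⁻¹ ^ j + 2 * (m : ℝ) ^ 3 * τ ^ b + (m : ℝ) ^ 4)) := by
            gcongr
        _ = _ := by ring
    refine (Finset.sum_le_sum e1).trans ?_
    rw [Finset.sum_add_distrib, ← Finset.mul_sum, ← Finset.mul_sum]
    refine add_le_add ?_ ?_
    · exact mul_le_mul_of_nonneg_left hSs (by positivity)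
    · exact mul_le_mul_of_nonneg_left hS1 (by positivity)
  have hsm := second_moment (n := n) h0 h1 N m b (by omega)
  set P0 : ℝ := EB p (fun ω : Sym2 (Fin n) → Bool =>
        if ∀ I ∈ (ivl n 0 N).powersetCard b, ∀ u ∈ ivl n N (N + m), ∀ v ∈ ivl n (N + m) (N + 2 * m),
          ¬ Tw I u v ω then (1 : ℝ) else 0) with hP0
  have hmu := mu1_pos h1 b
  have hfin : CN * (m : ℝ) ^ 4 * (P0 + 1) ≤ ∑ j ∈ Finset.range (b + 1),
          ((b.choose j : ℕ) : ℝ) * ((N.choose (b - j) : ℕ) : ℝ) * GG p m j := by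
    have e1 : (mu1 p b ^ 2 * CN) * (CN * (m : ℝ) ^ 4 * (P0 + 1))
        ≤ (mu1 p b ^ 2 * CN) * ∑ j ∈ Finset.range (b + 1),
          ((b.choose j : ℕ) : ℝ) * ((N.choose (b - j) : ℕ) : ℝ) * GG p m j := by
      have e2 : (mu1 p b ^ 2 * CN) * (CN * (m : ℝ) ^ 4 * (P0 + 1))
          = (CN * (m : ℝ) ^ 2 * mu1 p b) ^ 2 * P0 + (CN * (m : ℝ) ^ 2 * mu1 p b) ^ 2 := by ring
      rw [e2]
      have e3 : (mu1 p b ^ 2 * CN) * ∑ j ∈ Finset.range (b + 1),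
          ((b.choose j : ℕ) : ℝ) * ((N.choose (b - j) : ℕ) : ℝ) * GG p m j
          = mu1 p b ^ 2 * (CN * ∑ j ∈ Finset.range (b + 1),
          ((b.choose j : ℕ) : ℝ) * ((N.choose (b - j) : ℕ) : ℝ) * GG p m j) := by ring
      rw [e3]
      linarith
    exact le_of_mul_le_mul_left e1 (by positivity)
  -- bound for the sum
  set κ : ℝ := 1 / ((1 - p) * (m : ℝ) ^ 2) with hκ
  have hκ0 : 0 < κ := by positivity
  have hκm : (m : ℝ) ^ 2 / (1 - p) = κ * (m : ℝ) ^ 4 := by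
    rw [hκ]
    field_simp
  have hsum2 : ∑ j ∈ Finset.range (b + 1),
          ((b.choose j : ℕ) : ℝ) * ((N.choose (b - j) : ℕ) : ℝ) * GG p m j
      ≤ CN * (m : ℝ) ^ 4 * (107 / 100) := by
    refine hSig.trans ?_
    have a1 : R ^ (b - 1) * (sS p)⁻¹ ^ b * κ ≤ CN / 100 := by
      calc R ^ (b - 1) * (sS p)⁻¹ ^ b * κ ≤ CN * (32 / R) * (sS p)⁻¹ ^ b * κ := by gcongr
        _ = CN / R * (κ * (32 * (sS p)⁻¹ ^ b)) := by ring
        _ ≤ CN / R * (R / 100) := by gcongr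
        _ = CN / 100 := by field_simp
    have a2 : R ^ (b - 1) ≤ CN / 100 := by
      calc R ^ (b - 1) ≤ CN * (32 / R) := hRb
        _ ≤ CN * (1 / 100) := by gcongr
        _ = CN / 100 := by ring
    have a3 : (m : ℝ) ^ 2 / (1 - p) * ((1 + η) * (CN + R ^ (b - 1) * (sS p)⁻¹ ^ b))
        ≤ CN * (m : ℝ) ^ 4 * ((1 + 1 / 100) * (2 / 100)) := by
      rw [hκm]
      calc κ * (m : ℝ) ^ 4 * ((1 + η) * (CN + R ^ (b - 1) * (sS p)⁻¹ ^ b))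
          = (m : ℝ) ^ 4 * ((1 + η) * (κ * CN + R ^ (b - 1) * (sS p)⁻¹ ^ b * κ)) := by ring
        _ ≤ (m : ℝ) ^ 4 * ((1 + 1 / 100) * (1 / 100 * CN + CN / 100)) := by gcongr
        _ = _ := by ring
    have a4 : 2 * (m : ℝ) ^ 3 * τ ^ b + (m : ℝ) ^ 4 ≤ (m : ℝ) ^ 4 * (1 + 1 / 100) := by
      calc 2 * (m : ℝ) ^ 3 * τ ^ b + (m : ℝ) ^ 4 = (m : ℝ) ^ 3 * (2 * τ ^ b) + (m : ℝ) ^ 4 := by ring
        _ ≤ (m : ℝ) ^ 3 * ((m : ℝ) / 100) + (m : ℝ) ^ 4 := by gcongr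
        _ = _ := by ring
    have a5 : (2 * (m : ℝ) ^ 3 * τ ^ b + (m : ℝ) ^ 4) * ((1 + η) * (CN + R ^ (b - 1)))
        ≤ (m : ℝ) ^ 4 * (1 + 1 / 100) * ((1 + 1 / 100) * (CN + CN / 100)) := by
      gcongr
    have a6 : (0 : ℝ) < CN * (m : ℝ) ^ 4 := by positivity
    have a7 : (m : ℝ) ^ 4 * (1 + 1 / 100) * ((1 + 1 / 100) * (CN + CN / 100))
        = CN * (m : ℝ) ^ 4 * ((101 / 100) ^ 3) := by ring
    rw [a7] at a5
    refine (add_le_add a3 a5).trans ?_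
    rw [← mul_add]
    exact mul_le_mul_of_nonneg_left (by norm_num) a6.le
  have hP0le : P0 ≤ 7 / 100 := by
    have h := hfin.trans hsum2
    have := le_of_mul_le_mul_left h (by positivity)
    linarith
  -- the first part
  have hup := upper (n := n) h0 h1 N m b
  have hfirst : ((n.choose (b + 1) : ℕ) : ℝ) * (1 - p) ^ ((b + 1).choose 2) ≤ 1 / 8 := by
    rw [hpρ, ← pow_mul, two_choose, Nat.add_sub_cancel]
    have e : R ^ (b + 1) * ρ ^ ((b + 1) * b) = 1 := by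
      rw [Nat.mul_comm (b + 1) b, pow_mul, ← mul_pow, hR, one_pow]
    calc ((n.choose (b + 1) : ℕ) : ℝ) * ρ ^ ((b + 1) * b) ≤ R ^ (b + 1) / 8 * ρ ^ ((b + 1) * b) := by
          gcongr
      _ = R ^ (b + 1) * ρ ^ ((b + 1) * b) / 8 := by ring
      _ = 1 / 8 := by rw [e]
  linarith

theorem ev_small (k : ℕ) (r C δ : ℝ) (hr0 : 0 ≤ r) (hr : r < 1) (hδ : 0 < δ) :
    ∀ᶠ c : ℕ in atTop, C * ((c : ℝ) ^ k * r ^ c) ≤ δ := by
  have h := tendsto_pow_const_mul_const_pow_of_abs_lt_one k (r := r) (by rw [abs_of_nonneg hr0]; exact hr)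
  have h2 := h.const_mul C
  rw [mul_zero] at h2
  exact (h2.eventually (gt_mem_nhds hδ)).mono (fun c hc => hc.le)

theorem exists_bad (N0 : ℕ) : ∃ n : ℕ, N0 ≤ n ∧ PP (7 / 16) n ≤ 1 / 2 := by
  have f0 := ev_small 1 (9 / 16) 16 1 (by norm_num) (by norm_num) (by norm_num)
  have f1 := ev_small 3 (3 / 4) 288 (1 / 100) (by norm_num) (by norm_num) (by norm_num)
  have f2 := ev_small 0 (9 / 16) 3200 1 (by norm_num) (by norm_num) (by norm_num)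
  have f3 := ev_small 2 (81 / 256) (4096 / 9) (1 / 100) (by norm_num) (by norm_num) (by norm_num)
  have f4 := ev_small 2 (2916 / 4225) (32 * (4096 / 9)) (1 / 100) (by norm_num) (by norm_num) (by norm_num)
  have f5 := ev_small 1 ((4288 / 4225) ^ 2 * (9 / 16)) 32 (1 / 100) (by norm_num) (by norm_num) (by norm_num)
  have f6 := ev_small 0 (9 / 16) (N0 + 1) 1 (by norm_num) (by norm_num) (by norm_num)
  obtain ⟨c, hc2, g0, g1, g2, g3, g4, g5, g6⟩ := ((eventually_ge_atTop 2).and (f0.and (f1.and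
    (f2.and (f3.and (f4.and (f5.and f6))))))).exists
  have hcR : (2 : ℝ) ≤ (c : ℝ) := by exact_mod_cast hc2
  set R : ℝ := (16 / 9) ^ c with hR
  have hRpos : 0 < R := by positivity
  have hRinv : R * (9 / 16 : ℝ) ^ c = 1 := by
    rw [hR, ← mul_pow]
    norm_num
  have hR1 : 1 ≤ R := one_le_pow₀ (by norm_num)
  have hRρ : R * (3 / 4 : ℝ) ^ (2 * c) = 1 := by
    rw [pow_mul]
    norm_num
    exact hRinv
  -- consequences
  have hR0 : 16 * (c : ℝ) ≤ R := by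
    have : 16 * ((c : ℝ) ^ 1 * (9 / 16) ^ c) * R ≤ 1 * R := by gcongr
    calc 16 * (c : ℝ) = 16 * ((c : ℝ) ^ 1 * (9 / 16) ^ c) * R := by
          rw [pow_one]
          calc 16 * (c : ℝ) = 16 * (c : ℝ) * (R * (9 / 16 : ℝ) ^ c) := by rw [hRinv, mul_one]
            _ = _ := by ring
      _ ≤ 1 * R := this
      _ = R := one_mul R
  have hR3200 : 3200 ≤ R := by
    have : 3200 * ((c : ℝ) ^ 0 * (9 / 16) ^ c) * R ≤ 1 * R := by gcongr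
    calc (3200 : ℝ) = 3200 * ((c : ℝ) ^ 0 * (9 / 16) ^ c) * R := by
          rw [pow_zero, one_mul]
          calc (3200 : ℝ) = 3200 * (R * (9 / 16 : ℝ) ^ c) := by rw [hRinv, mul_one]
            _ = _ := by ring
      _ ≤ 1 * R := this
      _ = R := one_mul R
  have hRN0 : (N0 : ℝ) + 1 ≤ R := by
    have : ((N0 : ℝ) + 1) * ((c : ℝ) ^ 0 * (9 / 16) ^ c) * R ≤ 1 * R := by gcongr
    calc (N0 : ℝ) + 1 = ((N0 : ℝ) + 1) * ((c : ℝ) ^ 0 * (9 / 16) ^ c) * R := by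
          rw [pow_zero, one_mul]
          calc (N0 : ℝ) + 1 = ((N0 : ℝ) + 1) * (R * (9 / 16 : ℝ) ^ c) := by rw [hRinv, mul_one]
            _ = _ := by ring
      _ ≤ 1 * R := this
      _ = R := one_mul R
  obtain ⟨n, hn1, hn2, hn3, hn4⟩ := exists_n R hR1 (2 * c) (by omega)
  have hb2 : ((2 * c : ℕ) : ℝ) = 2 * (c : ℝ) := by push_cast; ring
  rw [hb2] at hn3
  have hnN0 : N0 ≤ n := by
    have : (N0 : ℝ) < (n : ℝ) + 1 := by linarith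
    have : N0 < n + 1 := by exact_mod_cast this
    omega
  refine ⟨n, hnN0, ?_⟩
  obtain ⟨m, hm⟩ : ∃ m, m = n / (4 * (2 * c)) := ⟨_, rfl⟩
  have hm1 : 4 * (2 * c) * m ≤ n := by
    rw [hm]
    exact Nat.mul_div_le n (4 * (2 * c))
  have hm2 : n < 4 * (2 * c) * (m + 1) := by
    rw [hm]
    exact Nat.lt_mul_div_succ n (by omega)
  have hm2' : (n : ℝ) + 1 ≤ 8 * (c : ℝ) * ((m : ℝ) + 1) := by
    have : n + 1 ≤ 4 * (2 * c) * (m + 1) := hm2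
    have h : ((n + 1 : ℕ) : ℝ) ≤ ((4 * (2 * c) * (m + 1) : ℕ) : ℝ) := by exact_mod_cast this
    push_cast at h
    linarith
  have hmR : R ≤ 16 * (c : ℝ) * (m : ℝ) := by
    nlinarith
  have hmpos : 1 ≤ m := by
    by_contra h
    have h0 : m = 0 := Nat.lt_one_iff.1 (not_le.1 h)
    rw [h0] at hmR
    simp at hmR
    linarith
  have hmposR : (0 : ℝ) < (m : ℝ) := by exact_mod_cast hmpos
  have h2m : 16 * m ≤ n := by nlinarith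
  have hnpos : 1 ≤ n := by omega
  obtain ⟨N, hN⟩ : ∃ N, N + 2 * m = n := ⟨n - 2 * m, by omega⟩
  have hNeq : n - 2 * m = N := by omega
  have hhalf := choose_half n (2 * c) m (by omega) hm1 hnpos
  rw [hNeq] at hhalf
  have hhalf' : ((n.choose (2 * c) : ℕ) : ℝ) ≤ 2 * ((N.choose (2 * c) : ℕ) : ℝ) := by
    exact_mod_cast hhalf
  have hNR : (N : ℝ) + 2 * (m : ℝ) = (n : ℝ) := by exact_mod_cast hN
  have h2mR : 16 * (m : ℝ) ≤ (n : ℝ) := by exact_mod_cast h2m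
  have hs : sS (7 / 16 : ℝ) = 65 / 128 := by unfold sS; norm_num
  have ht : tT (7 / 16 : ℝ) = 67 / 256 := by unfold tT; norm_num
  have hcpos : (0 : ℝ) < (c : ℝ) := by linarith
  -- bound for 1/m^2
  have hminv : 1 / ((1 - 7 / 16 : ℝ) * (m : ℝ) ^ 2) ≤ (4096 / 9) * (c : ℝ) ^ 2 * ((9 / 16 : ℝ) ^ c) ^ 2 := by
    rw [div_le_iff₀ (by positivity)]
    have e1 : 1 ≤ 16 * (c : ℝ) * (m : ℝ) * (9 / 16 : ℝ) ^ c := by
      calc (1 : ℝ) = R * (9 / 16 : ℝ) ^ c := hRinv.symm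
        _ ≤ 16 * (c : ℝ) * (m : ℝ) * (9 / 16 : ℝ) ^ c := by gcongr
    have e2 : (1 : ℝ) ≤ (16 * (c : ℝ) * (m : ℝ) * (9 / 16 : ℝ) ^ c) ^ 2 := one_le_pow₀ e1
    have e3 : (4096 / 9 : ℝ) * (c : ℝ) ^ 2 * ((9 / 16 : ℝ) ^ c) ^ 2 * ((1 - 7 / 16) * (m : ℝ) ^ 2)
        = (16 * (c : ℝ) * (m : ℝ) * (9 / 16 : ℝ) ^ c) ^ 2 := by ring
    rw [e3]
    exact e2
  refine main_bound (7 / 16) (3 / 4) R c n m N (by norm_num) (by norm_num) (by norm_num)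
    (by norm_num) (by norm_num) hRρ (by omega) ?_ ?_ ?_ hn1 hN hmpos ?_ ?_ ?_ ?_ hR3200 ?_ ?_ ?_
  · rw [hs]; norm_num
  · rw [hs]; norm_num
  · rw [hs, ht]; norm_num
  · linarith
  · have h3 : ((N - 2 * c : ℕ) : ℝ) = (N : ℝ) - 2 * (c : ℝ) := by
      rw [Nat.cast_sub]
      · push_cast; ring
      · have : (2 * (c : ℝ)) ≤ (N : ℝ) := by linarith
        exact_mod_cast this
    rw [h3]
    linarith
  · linarith
  · have e1 : (3 / 4 : ℝ) ^ (c - 1) = 4 / 3 * (3 / 4 : ℝ) ^ c := by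
      obtain ⟨d, rfl⟩ : ∃ d, c = d + 1 := ⟨c - 1, by omega⟩
      rw [Nat.add_sub_cancel, pow_succ]
      ring
    rw [e1]
    have e2 : (2 * (c : ℝ) + 1) ≤ 3 * (c : ℝ) := by linarith
    calc (2 * (c : ℝ) + 1) * (8 * (2 * (c : ℝ) + 1) ^ 2 * (4 / 3 * (3 / 4 : ℝ) ^ c))
        ≤ (3 * (c : ℝ)) * (8 * (3 * (c : ℝ)) ^ 2 * (4 / 3 * (3 / 4 : ℝ) ^ c)) := by gcongr
      _ = 288 * ((c : ℝ) ^ 3 * (3 / 4 : ℝ) ^ c) := by ring
      _ ≤ 1 / 100 := g1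
  · refine hminv.trans ?_
    have e1 : ((9 / 16 : ℝ) ^ c) ^ 2 = (81 / 256 : ℝ) ^ c := by
      rw [← pow_mul, Nat.mul_comm c 2, pow_mul]
      norm_num
    rw [e1]
    linarith
  · rw [hs]
    have e2 : ((65 / 128 : ℝ)⁻¹) ^ (2 * c) = ((128 / 65 : ℝ) ^ 2) ^ c := by
      rw [pow_mul]
      norm_num
    rw [e2]
    have e3 : (4096 / 9 : ℝ) * (c : ℝ) ^ 2 * ((9 / 16 : ℝ) ^ c) ^ 2 * (32 * ((128 / 65 : ℝ) ^ 2) ^ c)
        * (9 / 16 : ℝ) ^ c = 32 * (4096 / 9) * ((c : ℝ) ^ 2 * (2916 / 4225 : ℝ) ^ c) := by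
      have : (2916 / 4225 : ℝ) ^ c = ((9 / 16 : ℝ) ^ c) ^ 2 * ((128 / 65 : ℝ) ^ 2) ^ c * (9 / 16 : ℝ) ^ c := by
        rw [← pow_mul, Nat.mul_comm c 2, pow_mul, ← mul_pow, ← mul_pow]
        norm_num
      rw [this]
      ring
    calc 1 / ((1 - 7 / 16 : ℝ) * (m : ℝ) ^ 2) * (32 * ((128 / 65 : ℝ) ^ 2) ^ c)
        ≤ (4096 / 9) * (c : ℝ) ^ 2 * ((9 / 16 : ℝ) ^ c) ^ 2 * (32 * ((128 / 65 : ℝ) ^ 2) ^ c) := by gcongr
      _ = (4096 / 9 * (c : ℝ) ^ 2 * ((9 / 16 : ℝ) ^ c) ^ 2 * (32 * ((128 / 65 : ℝ) ^ 2) ^ c)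
        * (9 / 16 : ℝ) ^ c) * R := by
          calc _ = (4096 / 9) * (c : ℝ) ^ 2 * ((9 / 16 : ℝ) ^ c) ^ 2 * (32 * ((128 / 65 : ℝ) ^ 2) ^ c)
              * (R * (9 / 16 : ℝ) ^ c) := by rw [hRinv, mul_one]
            _ = _ := by ring
      _ = 32 * (4096 / 9) * ((c : ℝ) ^ 2 * (2916 / 4225 : ℝ) ^ c) * R := by rw [e3]
      _ ≤ 1 / 100 * R := by gcongr
      _ = R / 100 := by ring
  · rw [hs, ht]
    have e1 : (67 / 256 / (65 / 128) ^ 2 : ℝ) = 4288 / 4225 := by norm_num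
    rw [e1]
    have e2 : (4288 / 4225 : ℝ) ^ (2 * c) = ((4288 / 4225 : ℝ) ^ 2) ^ c := by rw [pow_mul]
    rw [e2]
    have e3 : 32 * ((c : ℝ) ^ 1 * ((4288 / 4225 : ℝ) ^ 2 * (9 / 16)) ^ c) * R
        = 32 * (c : ℝ) * ((4288 / 4225 : ℝ) ^ 2) ^ c := by
      rw [mul_pow, pow_one]
      calc _ = 32 * (c : ℝ) * ((4288 / 4225 : ℝ) ^ 2) ^ c * (R * (9 / 16 : ℝ) ^ c) := by ring
        _ = _ := by rw [hRinv, mul_one]
    have e4 : 32 * ((c : ℝ) ^ 1 * ((4288 / 4225 : ℝ) ^ 2 * (9 / 16)) ^ c) * R ≤ 1 / 100 * R := by gcongr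
    rw [e3] at e4
    generalize ((4288 / 4225 : ℝ) ^ 2) ^ c = X at e4 ⊢
    have e5 : 16 * (c : ℝ) * (2 * X) ≤ 16 * (c : ℝ) * ((m : ℝ) / 100) := by
      calc 16 * (c : ℝ) * (2 * X) = 32 * (c : ℝ) * X := by ring
        _ ≤ 1 / 100 * R := e4
        _ ≤ 1 / 100 * (16 * (c : ℝ) * (m : ℝ)) := by linarith
        _ = _ := by ring
    exact le_of_mul_le_mul_left e5 (by positivity)

end Pool.Agent.Y417.BC
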