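import Pool.Agent.Y417.BC.Second

/-!
# Chebyshev's inequality for the number of twin configurations
-/

set_option autoImplicit false
open scoped Classical
open Finset Filter Topology

namespace Pool.Agent.Y417.BC

open Pool.Agent.W839.Ch

section general

variable {ι : Type} [Fintype ι]

theorem EB_const (p c : ℝ) : EB p (fun _ : ι → Bool => c) = c := by
  have h := EB_mul_left (ι := ι) p c (fun _ => (1 : ℝ))
  rw [EB_one] at h
  simpa using h

/-- Chebyshev's inequality -/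
theorem cheb {κ : Type*} {p : ℝ} (h0 : 0 ≤ p) (h1 : p ≤ 1) (S : Finset κ)
    (A : κ → (ι → Bool) → Prop) (a B : ℝ)
    (hA : ∀ x ∈ S, EB p (fun ω => if A x ω then (1 : ℝ) else 0) = a)
    (hB : ∑ x ∈ S, ∑ y ∈ S, EB p (fun ω => if A x ω ∧ A y ω then (1 : ℝ) else 0) ≤ B) :
    ((S.card : ℝ) * a) ^ 2 * EB p (fun ω => if ∀ x ∈ S, ¬ A x ω then (1 : ℝ) else 0)
      ≤ B - ((S.card : ℝ) * a) ^ 2 := by
  set μ : ℝ := (S.card : ℝ) * a with hμ
  set Y : (ι → Bool) → ℝ := fun ω => ∑ x ∈ S, if A x ω then (1 : ℝ) else 0 with hY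
  have e1 : EB p Y = μ := by
    rw [hY, EB_sum, Finset.sum_congr rfl hA, Finset.sum_const, nsmul_eq_mul]
  have e2 : EB p (fun ω => Y ω ^ 2) ≤ B := by
    refine le_trans (le_of_eq ?_) hB
    have : ∀ ω, Y ω ^ 2 = ∑ x ∈ S, ∑ y ∈ S, (if A x ω ∧ A y ω then (1 : ℝ) else 0) := by
      intro ω
      rw [hY, sq, Finset.sum_mul_sum]
      refine Finset.sum_congr rfl (fun x _ => Finset.sum_congr rfl (fun y _ => ?_))
      by_cases hx : A x ω <;> by_cases hy : A y ω <;> simp [hx, hy]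
    rw [EB_congr p this, EB_sum]
    exact Finset.sum_congr rfl (fun x _ => EB_sum p S _)
  have e3 : EB p (fun ω => (Y ω - μ) ^ 2) = EB p (fun ω => Y ω ^ 2) - μ ^ 2 := by
    have : ∀ ω, (Y ω - μ) ^ 2 = Y ω ^ 2 + ((-2 * μ) * Y ω + μ ^ 2) := fun ω => by ring
    rw [EB_congr p this, EB_add, EB_add, EB_mul_left, EB_const, e1]
    ring
  have e4 : μ ^ 2 * EB p (fun ω => if ∀ x ∈ S, ¬ A x ω then (1 : ℝ) else 0)
      ≤ EB p (fun ω => (Y ω - μ) ^ 2) := by
    rw [← EB_mul_left]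
    refine EB_mono h0 h1 (fun ω => ?_)
    by_cases h : ∀ x ∈ S, ¬ A x ω
    · rw [if_pos h, mul_one]
      have : Y ω = 0 := by
        rw [hY]
        exact Finset.sum_eq_zero (fun x hx => if_neg (h x hx))
      rw [this]
      nlinarith
    · rw [if_neg h, mul_zero]
      positivity
  linarith

end general

variable {n : ℕ}

/-- interval of vertices -/
noncomputable def ivl (n a b : ℕ) : Finset (Fin n) :=
  Finset.univ.filter (fun i : Fin n => a ≤ (i : ℕ) ∧ (i : ℕ) < b)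

theorem mem_ivl {a b : ℕ} {i : Fin n} : i ∈ ivl n a b ↔ a ≤ (i : ℕ) ∧ (i : ℕ) < b := by
  unfold ivl
  simp

theorem card_ivl {a b : ℕ} (h : b ≤ n) : (ivl n a b).card = b - a := by
  have : (ivl n a b).map Fin.valEmbedding = Finset.Ico a b := by
    ext x
    rw [Finset.mem_map, Finset.mem_Ico]
    constructor
    · rintro ⟨i, hi, rfl⟩
      exact mem_ivl.1 hi
    · intro hx
      exact ⟨⟨x, lt_of_lt_of_le hx.2 h⟩, mem_ivl.2 hx, rfl⟩
  rw [← Finset.card_map Fin.valEmbedding, this, Nat.card_Ico]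

/-- counting sets by their intersection with a fixed set -/
theorem sum_inter_le {α : Type*} [DecidableEq α] (V I : Finset α) (b : ℕ) (hI : I.card = b) (F : ℕ → ℝ)
    (hF : ∀ j, 0 ≤ F j) :
    ∑ J ∈ V.powersetCard b, F (I ∩ J).card
      ≤ ∑ j ∈ Finset.range (b + 1), ((b.choose j : ℕ) : ℝ) * ((V.card.choose (b - j) : ℕ) : ℝ) * F j := by
  have h1 : ∑ J ∈ V.powersetCard b, F (I ∩ J).card
      = ∑ j ∈ Finset.range (b + 1), ∑ J ∈ (V.powersetCard b).filter (fun J => (I ∩ J).card = j),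
        F (I ∩ J).card := by
    rw [Finset.sum_fiberwise_of_maps_to]
    intro J hJ
    rw [Finset.mem_range]
    have := Finset.card_le_card (Finset.inter_subset_left : I ∩ J ⊆ I)
    omega
  rw [h1]
  refine Finset.sum_le_sum (fun j hj => ?_)
  rw [Finset.sum_congr rfl (g := fun _ => F j)
    (fun J hJ => by rw [(Finset.mem_filter.1 hJ).2]), Finset.sum_const, nsmul_eq_mul]
  refine mul_le_mul_of_nonneg_right ?_ (hF j)
  rw [← Nat.cast_mul]
  rw [Nat.cast_le]
  have h2 : ((V.powersetCard b).filter (fun J => (I ∩ J).card = j)).card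
      ≤ ((I.powersetCard j) ×ˢ (V.powersetCard (b - j))).card := by
    refine Finset.card_le_card_of_injOn (fun J => (I ∩ J, J \ I)) ?_ ?_
    · intro J hJ
      rw [Finset.mem_coe, Finset.mem_filter, Finset.mem_powersetCard] at hJ
      obtain ⟨⟨hJV, hJb⟩, hJj⟩ := hJ
      rw [Finset.mem_coe, Finset.mem_product, Finset.mem_powersetCard, Finset.mem_powersetCard]
      refine ⟨⟨Finset.inter_subset_left, hJj⟩, (Finset.sdiff_subset).trans hJV, ?_⟩
      have := Finset.card_sdiff_add_card_inter J I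
      rw [Finset.inter_comm] at this
      simp only
      omega
    · intro J hJ J' hJ' h
      simp only [Prod.mk.injEq] at h
      have e1 : J = (I ∩ J) ∪ (J \ I) := by
        rw [Finset.inter_comm, Finset.union_comm, Finset.sdiff_union_inter]
      have e2 : J' = (I ∩ J') ∪ (J' \ I) := by
        rw [Finset.inter_comm, Finset.union_comm, Finset.sdiff_union_inter]
      rw [e1, e2, h.1, h.2]
  refine h2.trans (le_of_eq ?_)
  rw [Finset.card_product, Finset.card_powersetCard, Finset.card_powersetCard, hI]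

theorem sum_phi (p : ℝ) (j m : ℕ) (V2 V3 : Finset (Fin n)) (h2 : V2.card = m) (h3 : V3.card = m) :
    ∑ x ∈ V2 ×ˢ V3, ∑ y ∈ V2 ×ˢ V3, phi p j x.1 x.2 y.1 y.2
      = (m : ℝ) ^ 2 * (1 / ((1 - p) * sS p ^ j)) + 2 * (m : ℝ) ^ 3 * (tT p / sS p ^ 2) ^ j
        + (m : ℝ) ^ 4 := by
  have h : ∀ x ∈ V2 ×ˢ V3, ∑ y ∈ V2 ×ˢ V3, phi p j x.1 x.2 y.1 y.2
      = 1 / ((1 - p) * sS p ^ j) + (m : ℝ) * (tT p / sS p ^ 2) ^ j
        + (m : ℝ) * (tT p / sS p ^ 2) ^ j + (m : ℝ) ^ 2 := by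
    intro x hx
    rw [Finset.mem_product] at hx
    unfold phi
    rw [Finset.sum_add_distrib, Finset.sum_add_distrib, Finset.sum_add_distrib]
    congr 1
    · congr 1
      · congr 1
        · rw [Finset.sum_eq_single x]
          · simp
          · intro y _ hy
            rw [if_neg]
            rintro ⟨h1, h2⟩
            exact hy (Prod.ext h1.symm h2.symm)
          · intro h
            exact absurd (Finset.mem_product.2 hx) h
        · rw [Finset.sum_product_right]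
          simp only [Finset.sum_ite_eq, hx.1, if_true, Finset.sum_const, h3, nsmul_eq_mul]
      · rw [Finset.sum_product]
        simp only [Finset.sum_ite_eq, hx.2, if_true, Finset.sum_const, h2, nsmul_eq_mul]
    · rw [Finset.sum_const, Finset.card_product, h2, h3, nsmul_eq_mul]
      push_cast
      ring
  rw [Finset.sum_congr rfl h, Finset.sum_const, Finset.card_product, h2, h3, nsmul_eq_mul]
  push_cast
  ring

/-- the bound for one value of the intersection -/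
noncomputable def GG (p : ℝ) (m j : ℕ) : ℝ :=
  ((1 - p) ^ (j.choose 2))⁻¹ * ((m : ℝ) ^ 2 * (1 / ((1 - p) * sS p ^ j))
    + 2 * (m : ℝ) ^ 3 * (tT p / sS p ^ 2) ^ j + (m : ℝ) ^ 4)

theorem GG_nonneg {p : ℝ} (h0 : 0 < p) (h1 : p < 1) (m j : ℕ) : 0 ≤ GG p m j := by
  have hq : 0 < 1 - p := by linarith
  have hs := sS_pos h1
  have ht := tT_pos h0 h1
  unfold GG
  positivity

theorem second_moment {p : ℝ} (h0 : 0 < p) (h1 : p < 1) (N m b : ℕ) (hn : N + 2 * m ≤ n) :
    ((N.choose b : ℝ) * (m : ℝ) ^ 2 * mu1 p b) ^ 2 *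
      EB p (fun ω : Sym2 (Fin n) → Bool =>
        if ∀ I ∈ (ivl n 0 N).powersetCard b, ∀ u ∈ ivl n N (N + m), ∀ v ∈ ivl n (N + m) (N + 2 * m),
          ¬ Tw I u v ω then (1 : ℝ) else 0)
      ≤ mu1 p b ^ 2 * ((N.choose b : ℝ) * ∑ j ∈ Finset.range (b + 1),
          ((b.choose j : ℕ) : ℝ) * ((N.choose (b - j) : ℕ) : ℝ) * GG p m j)
        - ((N.choose b : ℝ) * (m : ℝ) ^ 2 * mu1 p b) ^ 2 := by
  have hV1 : (ivl n 0 N).card = N := by rw [card_ivl (by omega)]; omega
  have hV2 : (ivl n N (N + m)).card = m := by rw [card_ivl (by omega)]; omega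
  have hV3 : (ivl n (N + m) (N + 2 * m)).card = m := by rw [card_ivl (by omega)]; omega
  set S : Finset (Finset (Fin n) × (Fin n × Fin n)) :=
    (ivl n 0 N).powersetCard b ×ˢ (ivl n N (N + m) ×ˢ ivl n (N + m) (N + 2 * m)) with hS
  have hScard : (S.card : ℝ) = (N.choose b : ℝ) * (m : ℝ) ^ 2 := by
    rw [hS, Finset.card_product, Finset.card_product, Finset.card_powersetCard, hV1, hV2, hV3]
    push_cast
    ring
  have hmem : ∀ x ∈ S, (∀ w ∈ x.1, (w : ℕ) < N) ∧ x.1.card = b ∧ N ≤ (x.2.1 : ℕ) ∧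
      (x.2.1 : ℕ) < N + m ∧ N + m ≤ (x.2.2 : ℕ) := by
    intro x hx
    rw [hS, Finset.mem_product, Finset.mem_product, Finset.mem_powersetCard, mem_ivl, mem_ivl] at hx
    refine ⟨fun w hw => (mem_ivl.1 (hx.1.1 hw)).2, hx.1.2, hx.2.1.1, hx.2.1.2, hx.2.2.1⟩
  have hch := cheb (ι := Sym2 (Fin n)) h0.le h1.le S (fun x ω => Tw x.1 x.2.1 x.2.2 ω) (mu1 p b)
    (mu1 p b ^ 2 * ((N.choose b : ℝ) * ∑ j ∈ Finset.range (b + 1),
          ((b.choose j : ℕ) : ℝ) * ((N.choose (b - j) : ℕ) : ℝ) * GG p m j)) ?_ ?_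
  · rw [hScard] at hch
    refine le_trans (le_of_eq ?_) hch
    congr 1
    refine EB_congr p (fun ω => ?_)
    congr 1
    rw [eq_iff_iff]
    constructor
    · intro h x hx
      rw [hS, Finset.mem_product, Finset.mem_product] at hx
      exact h _ hx.1 _ hx.2.1 _ hx.2.2
    · intro h I hI u hu v hv
      exact h (I, (u, v)) (by
        rw [hS, Finset.mem_product, Finset.mem_product]
        exact ⟨hI, hu, hv⟩)
  · intro x hx
    obtain ⟨a1, a2, a3, a4, a5⟩ := hmem x hx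
    refine prob_single p N b x.1 x.2.1 x.2.2 a1 a2 a3 (by omega) ?_
    intro h
    rw [h] at a4
    omega
  · have e1 : ∀ x ∈ S, ∀ y ∈ S,
        EB p (fun ω => if Tw x.1 x.2.1 x.2.2 ω ∧ Tw y.1 y.2.1 y.2.2 ω then (1 : ℝ) else 0)
        ≤ mu1 p b ^ 2 * (((1 - p) ^ ((x.1 ∩ y.1).card.choose 2))⁻¹ *
          phi p (x.1 ∩ y.1).card x.2.1 x.2.2 y.2.1 y.2.2) := by
      intro x hx y hy
      obtain ⟨a1, a2, a3, a4, a5⟩ := hmem x hx
      obtain ⟨b1, b2, b3, b4, b5⟩ := hmem y hy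
      exact prob_pair h0 h1 N (N + m) b x.1 y.1 x.2.1 x.2.2 y.2.1 y.2.2 a1 b1 a2 b2 a3 (by omega)
        b3 (by omega) a4 b4 a5 b5
    refine le_trans (Finset.sum_le_sum (fun x hx => Finset.sum_le_sum (fun y hy => e1 x hx y hy))) ?_
    have e2 : ∑ x ∈ S, ∑ y ∈ S, mu1 p b ^ 2 * (((1 - p) ^ ((x.1 ∩ y.1).card.choose 2))⁻¹ *
          phi p (x.1 ∩ y.1).card x.2.1 x.2.2 y.2.1 y.2.2)
        = ∑ I ∈ (ivl n 0 N).powersetCard b, ∑ J ∈ (ivl n 0 N).powersetCard b,
          mu1 p b ^ 2 * GG p m (I ∩ J).card := by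
      rw [hS, Finset.sum_product]
      refine Finset.sum_congr rfl (fun I _ => ?_)
      have : ∀ z ∈ ivl n N (N + m) ×ˢ ivl n (N + m) (N + 2 * m),
          ∑ y ∈ (ivl n 0 N).powersetCard b ×ˢ (ivl n N (N + m) ×ˢ ivl n (N + m) (N + 2 * m)),
            mu1 p b ^ 2 * (((1 - p) ^ ((I ∩ y.1).card.choose 2))⁻¹ *
              phi p (I ∩ y.1).card z.1 z.2 y.2.1 y.2.2)
          = ∑ J ∈ (ivl n 0 N).powersetCard b,
            ∑ y ∈ ivl n N (N + m) ×ˢ ivl n (N + m) (N + 2 * m),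
            mu1 p b ^ 2 * (((1 - p) ^ ((I ∩ J).card.choose 2))⁻¹ *
              phi p (I ∩ J).card z.1 z.2 y.1 y.2) := by
        intro z _
        rw [Finset.sum_product]
      rw [Finset.sum_congr rfl this, Finset.sum_comm]
      refine Finset.sum_congr rfl (fun J _ => ?_)
      simp only [← Finset.mul_sum]
      rw [sum_phi p _ m _ _ hV2 hV3]
      rfl
    rw [e2]
    have e3 : ∀ I ∈ (ivl n 0 N).powersetCard b, ∑ J ∈ (ivl n 0 N).powersetCard b,
          mu1 p b ^ 2 * GG p m (I ∩ J).card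
        ≤ mu1 p b ^ 2 * ∑ j ∈ Finset.range (b + 1),
          ((b.choose j : ℕ) : ℝ) * ((N.choose (b - j) : ℕ) : ℝ) * GG p m j := by
      intro I hI
      rw [← Finset.mul_sum]
      refine mul_le_mul_of_nonneg_left ?_ (by positivity)
      have := sum_inter_le (ivl n 0 N) I b (Finset.mem_powersetCard.1 hI).2 (GG p m)
        (GG_nonneg h0 h1 m)
      rw [hV1] at this
      exact this
    refine (Finset.sum_le_sum e3).trans (le_of_eq ?_)
    rw [Finset.sum_const, Finset.card_powersetCard, hV1, nsmul_eq_mul]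
    ring

end Pool.Agent.Y417.BC
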