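import Mathlib

/-!
# Estimates for binomial coefficients
-/

set_option autoImplicit false
open Finset Filter Topology

namespace Pool.Agent.Y417.BC

theorem choose_down (N b j : ℕ) (hj : j ≤ b) :
    N.choose (b - j) * (N - b) ^ j ≤ b ^ j * N.choose b := by
  induction j with
  | zero => simp
  | succ j ih =>
    have ih' := ih (by omega)
    have h1 := Nat.choose_succ_right_eq N (b - (j + 1))
    have h2 : b - (j + 1) + 1 = b - j := by omega
    rw [h2] at h1
    have h3 : N.choose (b - (j + 1)) * (N - b) ≤ b * N.choose (b - j) := by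
      calc N.choose (b - (j + 1)) * (N - b) ≤ N.choose (b - (j + 1)) * (N - (b - (j + 1))) :=
            Nat.mul_le_mul_left _ (by omega)
        _ = N.choose (b - j) * (b - j) := h1.symm
        _ ≤ N.choose (b - j) * b := Nat.mul_le_mul_left _ (by omega)
        _ = b * N.choose (b - j) := Nat.mul_comm _ _
    calc N.choose (b - (j + 1)) * (N - b) ^ (j + 1)
        = (N.choose (b - (j + 1)) * (N - b)) * (N - b) ^ j := by ring
      _ ≤ (b * N.choose (b - j)) * (N - b) ^ j := Nat.mul_le_mul_right _ h3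
      _ = b * (N.choose (b - j) * (N - b) ^ j) := by ring
      _ ≤ b * (b ^ j * N.choose b) := Nat.mul_le_mul_left _ ih'
      _ = b ^ (j + 1) * N.choose b := by ring

theorem choose_sub_le (n b k : ℕ) (hb : 1 ≤ b) (hk : k ≤ n) :
    n.choose b ≤ (n - k).choose b + k * (n - 1).choose (b - 1) := by
  induction k with
  | zero => simp
  | succ k ih =>
    have ih' := ih (by omega)
    obtain ⟨m, hm⟩ : ∃ m, n - k = m + 1 := ⟨n - k - 1, by omega⟩
    obtain ⟨a, rfl⟩ : ∃ a, b = a + 1 := ⟨b - 1, by omega⟩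
    have h1 : n - (k + 1) = m := by omega
    rw [hm, Nat.choose_succ_succ] at ih'
    rw [h1]
    simp only [Nat.add_sub_cancel] at ih' ⊢
    have h2 : m.choose a ≤ (n - 1).choose a := Nat.choose_le_choose a (by omega)
    have h3 : (k + 1) * (n - 1).choose a = k * (n - 1).choose a + (n - 1).choose a := by ring
    rw [h3]
    have h4 : a.succ = a + 1 := rfl
    rw [h4] at ih'
    omega

theorem choose_half (n b m : ℕ) (hb : 1 ≤ b) (hm : 4 * b * m ≤ n) (hn : 1 ≤ n) :
    n.choose b ≤ 2 * (n - 2 * m).choose b := by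
  have h1 := choose_sub_le n b (2 * m) hb (by nlinarith)
  have h2 : n * (n - 1).choose (b - 1) = n.choose b * b := by
    obtain ⟨a, rfl⟩ : ∃ a, b = a + 1 := ⟨b - 1, by omega⟩
    obtain ⟨k, rfl⟩ : ∃ k, n = k + 1 := ⟨n - 1, by omega⟩
    simp only [Nat.add_sub_cancel]
    exact Nat.add_one_mul_choose_eq k a
  have h3 : n * n.choose b ≤ n * (2 * (n - 2 * m).choose b) := by
    have e1 : 2 * (n * n.choose b) ≤ 2 * (n * (n - 2 * m).choose b) + n * n.choose b := by
      calc 2 * (n * n.choose b) ≤ 2 * (n * ((n - 2 * m).choose b + 2 * m * (n - 1).choose (b - 1))) :=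
            Nat.mul_le_mul_left _ (Nat.mul_le_mul_left _ h1)
        _ = 2 * (n * (n - 2 * m).choose b) + 4 * m * (n * (n - 1).choose (b - 1)) := by ring
        _ = 2 * (n * (n - 2 * m).choose b) + 4 * b * m * n.choose b := by rw [h2]; ring
        _ ≤ 2 * (n * (n - 2 * m).choose b) + n * n.choose b :=
            Nat.add_le_add_left (Nat.mul_le_mul_right _ hm) _
    have e2 : n * (2 * (n - 2 * m).choose b) = 2 * (n * (n - 2 * m).choose b) := by ring
    omega
  exact Nat.le_of_mul_le_mul_left h3 hn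

/-- The choice of `n`: the greatest `n` for which the expected number of independent sets of size
`b + 1` is at most `1/8`. Here `R ^ (b + 1)` is the reciprocal of the probability. -/
theorem exists_n (R : ℝ) (hR : 1 ≤ R) (b : ℕ) (hb : 3 ≤ b) :
    ∃ n : ℕ, ((n.choose (b + 1) : ℕ) : ℝ) ≤ R ^ (b + 1) / 8 ∧
      R < (n : ℝ) + 1 ∧ (n : ℝ) + 1 ≤ 2 * ((b : ℝ) + 1) * R ∧
      R ^ b / 16 ≤ ((n.choose b : ℕ) : ℝ) := by
  have hRk : 0 < R ^ (b + 1) := by positivity
  -- the set of good values is bounded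
  have hbd : ∀ n : ℕ, ((n.choose (b + 1) : ℕ) : ℝ) ≤ R ^ (b + 1) / 8 →
      (n : ℝ) + 1 ≤ 2 * ((b : ℝ) + 1) * R := by
    intro n hn
    have h1 : (((n + 1 - (b + 1) : ℕ) : ℝ) ^ (b + 1)) ≤
        (((b + 1).factorial : ℕ) : ℝ) * ((n.choose (b + 1) : ℕ) : ℝ) := by
      have := Nat.pow_le_choose (α := ℝ) (b + 1) n
      rw [div_le_iff₀ (by positivity)] at this
      linarith
    have h2 : (((b + 1).factorial : ℕ) : ℝ) ≤ ((b : ℝ) + 1) ^ (b + 1) := by
      have := Nat.factorial_le_pow (b + 1)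
      exact_mod_cast this
    have h3 : (((n + 1 - (b + 1) : ℕ) : ℝ) ^ (b + 1)) ≤ (((b : ℝ) + 1) * R) ^ (b + 1) := by
      rw [mul_pow]
      calc (((n + 1 - (b + 1) : ℕ) : ℝ) ^ (b + 1))
          ≤ (((b + 1).factorial : ℕ) : ℝ) * ((n.choose (b + 1) : ℕ) : ℝ) := h1
        _ ≤ ((b : ℝ) + 1) ^ (b + 1) * (R ^ (b + 1) / 8) := by gcongr
        _ ≤ ((b : ℝ) + 1) ^ (b + 1) * R ^ (b + 1) := by
            gcongr
            linarith
    have h4 : ((n + 1 - (b + 1) : ℕ) : ℝ) ≤ ((b : ℝ) + 1) * R :=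
      le_of_pow_le_pow_left₀ (by omega) (by positivity) h3
    have h5 : (n : ℝ) ≤ ((n + 1 - (b + 1) : ℕ) : ℝ) + b := by
      have : n ≤ (n + 1 - (b + 1)) + b := by omega
      exact_mod_cast this
    have h6 : (b : ℝ) + 1 ≤ ((b : ℝ) + 1) * R := by nlinarith [(Nat.cast_nonneg b : (0 : ℝ) ≤ b)]
    linarith
  have hex : ∃ n : ℕ, ((n.choose (b + 1) : ℕ) : ℝ) ≤ R ^ (b + 1) / 8 ∧
      ¬ (((n + 1).choose (b + 1) : ℕ) : ℝ) ≤ R ^ (b + 1) / 8 := by
    by_contra hcon
    push Not at hcon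
    have hall : ∀ n : ℕ, ((n.choose (b + 1) : ℕ) : ℝ) ≤ R ^ (b + 1) / 8 := by
      intro n
      induction n with
      | zero =>
        rw [Nat.choose_eq_zero_of_lt (by omega)]
        simp only [Nat.cast_zero]
        positivity
      | succ n ih => exact hcon n ih
    obtain ⟨n, hn⟩ := exists_nat_gt (2 * ((b : ℝ) + 1) * R)
    have := hbd n (hall n)
    linarith
  obtain ⟨n, hn1, hn2⟩ := hex
  push Not at hn2
  refine ⟨n, hn1, ?_, hbd n hn1, ?_⟩
  · have h1 : (((n + 1).choose (b + 1) : ℕ) : ℝ) ≤ ((n : ℝ) + 1) ^ (b + 1) / (((b + 1).factorial : ℕ) : ℝ) := by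
      have := Nat.choose_le_pow_div (α := ℝ) (b + 1) (n + 1)
      push_cast at this ⊢
      exact this
    have h2 : (8 : ℝ) ≤ (((b + 1).factorial : ℕ) : ℝ) := by
      have : Nat.factorial 4 ≤ (b + 1).factorial := Nat.factorial_le (by omega)
      have h3 : (8 : ℕ) ≤ (b + 1).factorial := by
        have : Nat.factorial 4 = 24 := by decide
        omega
      exact_mod_cast h3
    have h4 : R ^ (b + 1) < ((n : ℝ) + 1) ^ (b + 1) := by
      have h5 : ((n : ℝ) + 1) ^ (b + 1) / (((b + 1).factorial : ℕ) : ℝ) ≤ ((n : ℝ) + 1) ^ (b + 1) / 8 := by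
        gcongr
      have h6 : R ^ (b + 1) / 8 < ((n : ℝ) + 1) ^ (b + 1) / 8 := by linarith
      linarith
    exact lt_of_pow_lt_pow_left₀ (b + 1) (by positivity) h4
  · have h1 : ((n : ℝ) + 1) * ((n.choose b : ℕ) : ℝ) = (((n + 1).choose (b + 1) : ℕ) : ℝ) * ((b : ℝ) + 1) := by
      have := Nat.add_one_mul_choose_eq n b
      exact_mod_cast this
    have h2 := hbd n hn1
    have h3 : (R ^ b / 16) * (2 * ((b : ℝ) + 1) * R) ≤ ((n.choose b : ℕ) : ℝ) * (2 * ((b : ℝ) + 1) * R) := by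
      calc (R ^ b / 16) * (2 * ((b : ℝ) + 1) * R) = (R ^ (b + 1) / 8) * ((b : ℝ) + 1) := by ring
        _ ≤ (((n + 1).choose (b + 1) : ℕ) : ℝ) * ((b : ℝ) + 1) := by gcongr
        _ = ((n : ℝ) + 1) * ((n.choose b : ℕ) : ℝ) := h1.symm
        _ ≤ (2 * ((b : ℝ) + 1) * R) * ((n.choose b : ℕ) : ℝ) := by gcongr
        _ = _ := by ring
    exact le_of_mul_le_mul_right h3 (by positivity)

end Pool.Agent.Y417.BC
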