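import Mathlib

/-!
# Biclique partitions from a twin pair over an independent set
-/

set_option autoImplicit false
open scoped Classical
open Finset Filter Topology

namespace Pool.Agent.Y417.BC

variable {n : ℕ}

/-- the set whose infimum is the biclique partition number in the frozen statement -/
def bcSet (G : SimpleGraph (Fin n)) : Set ℕ :=
  {k : ℕ | ∃ A B : Fin k → Finset (Fin n),
              (∀ i, Disjoint (A i) (B i)) ∧
              ∀ u v : Fin n,
                (G.Adj u v → ∃! i, (u ∈ A i ∧ v ∈ B i) ∨ (v ∈ A i ∧ u ∈ B i)) ∧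
                (¬ G.Adj u v → ∀ i, ¬ (u ∈ A i ∧ v ∈ B i))}

theorem bc_mem (G : SimpleGraph (Fin n)) (I : Finset (Fin n)) (u v : Fin n) (huI : u ∉ I)
    (hvI : v ∉ I) (huv : u ≠ v) (hI : ∀ a ∈ I, ∀ b ∈ I, ¬ G.Adj a b) (hadj : ¬ G.Adj u v)
    (htw : ∀ w ∈ I, (G.Adj u w ↔ G.Adj v w)) :
    n - I.card - 1 ∈ bcSet G := by
  -- the other vertices
  set W : Finset (Fin n) := Finset.univ \ (insert u (insert v I)) with hW
  have hWc : W.card = n - (I.card + 2) := by
    rw [hW, Finset.card_sdiff_of_subset (Finset.subset_univ _), Finset.card_univ, Fintype.card_fin,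
      Finset.card_insert_of_notMem (by
        rw [Finset.mem_insert]
        rintro (h | h)
        · exact huv h
        · exact huI h), Finset.card_insert_of_notMem hvI]
  have hle : I.card + 2 ≤ n := by
    have h := Finset.card_le_univ (insert u (insert v I))
    rw [Fintype.card_fin, Finset.card_insert_of_notMem (by
        rw [Finset.mem_insert]
        rintro (h | h)
        · exact huv h
        · exact huI h), Finset.card_insert_of_notMem hvI] at h
    exact h
  have hcard : Fintype.card (Option W) = n - I.card - 1 := by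
    rw [Fintype.card_option, Fintype.card_coe, hWc]
    omega
  let e : Fin (n - I.card - 1) ≃ Option W :=
    (Fintype.equivFinOfCardEq hcard).symm
  let A' : Option W → Finset (Fin n) := fun o => o.elim {u, v} (fun w => {w.1})
  let B' : Option W → Finset (Fin n) := fun o => o.elim (I.filter (fun x => G.Adj u x))
    (fun w => Finset.univ.filter (fun x => G.Adj w.1 x ∧ (x ∈ W → x < w.1)))
  have hA0 : ∀ x, x ∈ A' none ↔ x = u ∨ x = v := by
    intro x
    simp [A']
  have hA1 : ∀ (w : W) x, x ∈ A' (some w) ↔ x = w.1 := by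
    intro w x
    simp [A']
  have hB0 : ∀ x, x ∈ B' none ↔ x ∈ I ∧ G.Adj u x := by
    intro x
    simp [B']
  have hB1 : ∀ (w : W) x, x ∈ B' (some w) ↔ G.Adj w.1 x ∧ (x ∈ W → x < w.1) := by
    intro w x
    simp [B']
  have hWmem : ∀ x, x ∈ W ↔ x ≠ u ∧ x ≠ v ∧ x ∉ I := by
    intro x
    rw [hW]
    simp
  have huW : u ∉ W := fun h => ((hWmem u).1 h).1 rfl
  have hvW : v ∉ W := fun h => ((hWmem v).1 h).2.1 rfl
  have hIW : ∀ x ∈ I, x ∉ W := fun x hx h => ((hWmem x).1 h).2.2 hx
  have hdis : ∀ o, Disjoint (A' o) (B' o) := by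
    intro o
    rw [Finset.disjoint_left]
    rcases o with _ | w
    · intro x hx hx2
      rw [hA0] at hx
      rw [hB0] at hx2
      rcases hx with rfl | rfl
      · exact huI hx2.1
      · exact hvI hx2.1
    · intro x hx hx2
      rw [hA1] at hx
      rw [hB1] at hx2
      subst hx
      exact G.loopless.irrefl _ hx2.1
  -- the covering property for ordered pairs
  have hcov : ∀ x y, G.Adj x y → ∃! o, (x ∈ A' o ∧ y ∈ B' o) ∨ (y ∈ A' o ∧ x ∈ B' o) := by
    intro x y hxy
    by_cases hx : x ∈ W
    · by_cases hy : y ∈ W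
      · rcases lt_trichotomy x y with hlt | heq | hgt
        · refine ⟨some ⟨y, hy⟩, Or.inr ⟨(hA1 _ _).2 rfl, (hB1 _ _).2 ⟨hxy.symm, fun _ => hlt⟩⟩, ?_⟩
          intro o ho
          rcases o with _ | w
          · exfalso
            rw [hA0, hA0] at ho
            rcases ho with ⟨rfl | rfl, -⟩ | ⟨rfl | rfl, -⟩
            · exact huW hx
            · exact hvW hx
            · exact huW hy
            · exact hvW hy
          · rw [hA1, hA1, hB1, hB1] at ho
            rcases ho with ⟨h1, h2⟩ | ⟨h1, h2⟩
            · exfalso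
              have := h2.2 hy
              rw [← h1] at this
              exact absurd this (not_lt.2 hlt.le)
            · congr 1
              exact Subtype.ext h1.symm
        · exfalso
          rw [heq] at hxy
          exact G.loopless.irrefl _ hxy
        · refine ⟨some ⟨x, hx⟩, Or.inl ⟨(hA1 _ _).2 rfl, (hB1 _ _).2 ⟨hxy, fun _ => hgt⟩⟩, ?_⟩
          intro o ho
          rcases o with _ | w
          · exfalso
            rw [hA0, hA0] at ho
            rcases ho with ⟨rfl | rfl, -⟩ | ⟨rfl | rfl, -⟩
            · exact huW hx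
            · exact hvW hx
            · exact huW hy
            · exact hvW hy
          · rw [hA1, hA1, hB1, hB1] at ho
            rcases ho with ⟨h1, h2⟩ | ⟨h1, h2⟩
            · congr 1
              exact Subtype.ext h1.symm
            · exfalso
              have := h2.2 hx
              rw [← h1] at this
              exact absurd this (not_lt.2 hgt.le)
      · refine ⟨some ⟨x, hx⟩, Or.inl ⟨(hA1 _ _).2 rfl, (hB1 _ _).2 ⟨hxy, fun h => absurd h hy⟩⟩, ?_⟩
        intro o ho
        rcases o with _ | w
        · exfalso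
          rw [hA0, hA0, hB0, hB0] at ho
          rcases ho with ⟨rfl | rfl, -⟩ | ⟨-, h2, -⟩
          · exact huW hx
          · exact hvW hx
          · exact hIW _ h2 hx
        · rw [hA1, hA1, hB1, hB1] at ho
          rcases ho with ⟨h1, h2⟩ | ⟨h1, h2⟩
          · congr 1
            exact Subtype.ext h1.symm
          · exfalso
            exact hy (by rw [h1]; exact w.2)
    · by_cases hy : y ∈ W
      · refine ⟨some ⟨y, hy⟩, Or.inr ⟨(hA1 _ _).2 rfl, (hB1 _ _).2 ⟨hxy.symm,
          fun h => absurd h hx⟩⟩, ?_⟩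
        intro o ho
        rcases o with _ | w
        · exfalso
          rw [hA0, hA0, hB0, hB0] at ho
          rcases ho with ⟨-, h2, -⟩ | ⟨rfl | rfl, -⟩
          · exact hIW _ h2 hy
          · exact huW hy
          · exact hvW hy
        · rw [hA1, hA1, hB1, hB1] at ho
          rcases ho with ⟨h1, h2⟩ | ⟨h1, h2⟩
          · exfalso
            exact hx (by rw [h1]; exact w.2)
          · congr 1
            exact Subtype.ext h1.symm
      · -- both outside of `W`
        have hno : ∀ w : W, ¬ ((x ∈ A' (some w) ∧ y ∈ B' (some w)) ∨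
            (y ∈ A' (some w) ∧ x ∈ B' (some w))) := by
          intro w ho
          rw [hA1, hA1] at ho
          rcases ho with ⟨h1, -⟩ | ⟨h1, -⟩
          · exact hx (by rw [h1]; exact w.2)
          · exact hy (by rw [h1]; exact w.2)
        have hx' : x = u ∨ x = v ∨ x ∈ I := by
          by_contra hc
          push Not at hc
          exact hx ((hWmem x).2 hc)
        have hy' : y = u ∨ y = v ∨ y ∈ I := by
          by_contra hc
          push Not at hc
          exact hy ((hWmem y).2 hc)
        refine ⟨none, ?_, ?_⟩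
        · simp only
          rw [hA0, hA0, hB0, hB0]
          rcases hx' with rfl | rfl | hxI
          · rcases hy' with rfl | rfl | hyI
            · exact absurd hxy (G.loopless.irrefl _)
            · exact absurd hxy hadj
            · exact Or.inl ⟨Or.inl rfl, hyI, hxy⟩
          · rcases hy' with rfl | rfl | hyI
            · exact absurd hxy.symm hadj
            · exact absurd hxy (G.loopless.irrefl _)
            · exact Or.inl ⟨Or.inr rfl, hyI, (htw y hyI).2 hxy⟩
          · rcases hy' with rfl | rfl | hyI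
            · exact Or.inr ⟨Or.inl rfl, hxI, hxy.symm⟩
            · exact Or.inr ⟨Or.inr rfl, hxI, (htw x hxI).2 hxy.symm⟩
            · exact absurd hxy (hI x hxI y hyI)
        · intro o ho
          rcases o with _ | w
          · rfl
          · exact absurd ho (hno w)
  have hnon : ∀ x y, ¬ G.Adj x y → ∀ o, ¬ (x ∈ A' o ∧ y ∈ B' o) := by
    intro x y hxy o ho
    rcases o with _ | w
    · rw [hA0, hB0] at ho
      rcases ho with ⟨rfl | rfl, h1, h2⟩
      · exact hxy h2
      · exact hxy ((htw y h1).1 h2)
    · rw [hA1, hB1] at ho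
      rcases ho with ⟨rfl, h1, -⟩
      exact hxy h1
  refine ⟨fun i => A' (e i), fun i => B' (e i), fun i => hdis _, fun x y => ⟨fun hxy => ?_,
    fun hxy i => hnon x y hxy _⟩⟩
  obtain ⟨o, ho, huniq⟩ := hcov x y hxy
  refine ⟨e.symm o, ?_, ?_⟩
  · simp only [Equiv.apply_symm_apply]
    exact ho
  · intro i hi
    rw [← huniq (e i) hi, Equiv.symm_apply_apply]

theorem bc_ne (G : SimpleGraph (Fin n)) (b : ℕ)
    (hα : ∀ J : Finset (Fin n), J.card = b + 1 → ∃ x ∈ J, ∃ y ∈ J, x ≠ y ∧ G.Adj x y)
    (I : Finset (Fin n)) (hIb : I.card = b) (u v : Fin n) (huI : u ∉ I)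
    (hvI : v ∉ I) (huv : u ≠ v) (hI : ∀ a ∈ I, ∀ b ∈ I, ¬ G.Adj a b) (hadj : ¬ G.Adj u v)
    (htw : ∀ w ∈ I, (G.Adj u w ↔ G.Adj v w)) :
    sInf (bcSet G) ≠ n - Gᶜ.cliqueNum := by
  have h1 : sInf (bcSet G) ≤ n - I.card - 1 := Nat.sInf_le (bc_mem G I u v huI hvI huv hI hadj htw)
  have h2 : Gᶜ.cliqueNum ≤ b := by
    by_contra hc
    push Not at hc
    obtain ⟨s, hs⟩ := Gᶜ.exists_isNClique_cliqueNum
    have hs2 : b + 1 ≤ s.card := by rw [hs.card_eq]; omega
    obtain ⟨t, hts, htc⟩ := Finset.exists_subset_card_eq hs2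
    obtain ⟨x, hx, y, hy, hxy, hadj2⟩ := hα t htc
    have := hs.isClique (hts hx) (hts hy) hxy
    rw [SimpleGraph.compl_adj] at this
    exact this.2 hadj2
  have hle : I.card + 2 ≤ n := by
    have h := Finset.card_le_univ (insert u (insert v I))
    rw [Fintype.card_fin, Finset.card_insert_of_notMem (by
        rw [Finset.mem_insert]
        rintro (h | h)
        · exact huv h
        · exact huI h), Finset.card_insert_of_notMem hvI] at h
    exact h
  omega

end Pool.Agent.Y417.BC
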