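import Pool.Agent.Y417.BC.Prob

/-!
# Joint probabilities of twin configurations
-/

set_option autoImplicit false
open scoped Classical
open Finset Filter Topology

namespace Pool.Agent.Y417.BC

open Pool.Agent.W839.Ch

variable {n : ℕ}

/-- the unordered pairs inside `I` -/
noncomputable def prs (I : Finset (Fin n)) : Finset (Sym2 (Fin n)) := I.offDiag.image Sym2.mk.uncurry

theorem mem_prs {I : Finset (Fin n)} {a b : Fin n} : s(a, b) ∈ prs I ↔ a ∈ I ∧ b ∈ I ∧ a ≠ b := by
  unfold prs
  rw [Finset.mem_image]
  constructor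
  · rintro ⟨⟨x, y⟩, hxy, he⟩
    rw [Finset.mem_offDiag] at hxy
    simp only [Function.uncurry] at he
    rw [Sym2.eq_iff] at he
    rcases he with ⟨rfl, rfl⟩ | ⟨rfl, rfl⟩
    · exact hxy
    · exact ⟨hxy.2.1, hxy.1, fun h => hxy.2.2 h.symm⟩
  · intro h
    exact ⟨(a, b), Finset.mem_offDiag.2 h, rfl⟩

theorem card_prs (I : Finset (Fin n)) : (prs I).card = I.card.choose 2 := by
  unfold prs
  exact Sym2.card_image_offDiag I

theorem prs_inter (I J : Finset (Fin n)) : prs I ∩ prs J = prs (I ∩ J) := by
  ext e
  induction e with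
  | _ a b =>
    rw [Finset.mem_inter, mem_prs, mem_prs, mem_prs, Finset.mem_inter, Finset.mem_inter]
    tauto

/-- twin configuration: `I` is independent, `u`, `v` are not adjacent and have the same
neighbours in `I` -/
def Tw (I : Finset (Fin n)) (u v : Fin n) (ω : Sym2 (Fin n) → Bool) : Prop :=
  (∀ e ∈ prs I, ω e = false) ∧ ω s(u, v) = false ∧ ∀ w ∈ I, ω s(u, w) = ω s(v, w)

/-- the condition at the vertex `w` -/
def Rw (I I' : Finset (Fin n)) (u v u' v' w : Fin n) (ω : Sym2 (Fin n) → Bool) : Prop :=
  (w ∈ I → ω s(u, w) = ω s(v, w)) ∧ (w ∈ I' → ω s(u', w) = ω s(v', w))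

/-- the pairs which have to be non-edges -/
noncomputable def Zs (I I' : Finset (Fin n)) (u v u' v' : Fin n) : Finset (Sym2 (Fin n)) :=
  prs I ∪ prs I' ∪ {s(u, v), s(u', v')}

theorem joint (p : ℝ) (N : ℕ) (I I' : Finset (Fin n)) (u v u' v' : Fin n)
    (hI : ∀ w ∈ I, (w : ℕ) < N) (hI' : ∀ w ∈ I', (w : ℕ) < N)
    (hu : N ≤ (u : ℕ)) (hv : N ≤ (v : ℕ)) (hu' : N ≤ (u' : ℕ)) (hv' : N ≤ (v' : ℕ)) :
    EB p (fun ω => if Tw I u v ω ∧ Tw I' u' v' ω then (1 : ℝ) else 0)
      = (1 - p) ^ (Zs I I' u v u' v').card *
        ∏ w : Fin n, EB p (fun ω => if Rw I I' u v u' v' w ω then (1 : ℝ) else 0) := by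
  have h := blk (Sym2 (Fin n)) (Sym2 (Fin n) ⊕ Fin n) p
    (fun e => if e ∈ Zs I I' u v u' v' then some (Sum.inl e) else some (Sum.inr e.inf))
    (fun j ω => Sum.elim
      (fun e => if e ∈ Zs I I' u v u' v' then (if ω e = false then (1 : ℝ) else 0) else 1)
      (fun w => if Rw I I' u v u' v' w ω then (1 : ℝ) else 0) j) ?_
  · rw [Fintype.prod_sum_type] at h
    simp only [Sum.elim_inl, Sum.elim_inr] at h
    have h1 : ∀ e : Sym2 (Fin n),
        EB p (fun ω : Sym2 (Fin n) → Bool => if e ∈ Zs I I' u v u' v' then
          (if ω e = false then (1 : ℝ) else 0) else 1)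
        = if e ∈ Zs I I' u v u' v' then (1 - p) else 1 := by
      intro e
      by_cases he : e ∈ Zs I I' u v u' v'
      · simp only [if_pos he]
        have := EB_assign p ({e} : Finset (Sym2 (Fin n))) (fun _ => false)
        rw [Finset.prod_singleton] at this
        simp only [Finset.mem_singleton, forall_eq] at this
        rw [this]
        simp [bw]
      · simp only [if_neg he]
        exact EB_one p
    rw [Finset.prod_congr rfl (fun e _ => h1 e), Finset.prod_ite_mem, Finset.univ_inter,
      Finset.prod_const] at h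
    rw [← h]
    refine EB_congr p (fun ω => ?_)
    rw [Fintype.prod_sum_type]
    simp only [Sum.elim_inl, Sum.elim_inr]
    by_cases hT : Tw I u v ω ∧ Tw I' u' v' ω
    · rw [if_pos hT]
      obtain ⟨⟨a1, a2, a3⟩, b1, b2, b3⟩ := hT
      rw [Finset.prod_eq_one, Finset.prod_eq_one, one_mul]
      · intro w _
        rw [if_pos]
        exact ⟨a3 w, b3 w⟩
      · intro e _
        by_cases he : e ∈ Zs I I' u v u' v'
        · rw [if_pos he, if_pos]
          unfold Zs at he
          simp only [Finset.mem_union, Finset.mem_insert, Finset.mem_singleton] at he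
          rcases he with (he | he) | (he | he)
          · exact a1 e he
          · exact b1 e he
          · rw [he]; exact a2
          · rw [he]; exact b2
        · rw [if_neg he]
    · rw [if_neg hT]
      symm
      by_contra hne
      apply hT
      have hne1 := left_ne_zero_of_mul hne
      have hne2 := right_ne_zero_of_mul hne
      rw [Finset.prod_ne_zero_iff] at hne1 hne2
      have k1 : ∀ e ∈ Zs I I' u v u' v', ω e = false := by
        intro e he
        have := hne1 e (Finset.mem_univ e)
        rw [if_pos he] at this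
        by_contra hc
        rw [if_neg hc] at this
        exact this rfl
      have k2 : ∀ w, Rw I I' u v u' v' w ω := by
        intro w
        have := hne2 w (Finset.mem_univ w)
        by_contra hc
        rw [if_neg hc] at this
        exact this rfl
      refine ⟨⟨?_, ?_, ?_⟩, ?_, ?_, ?_⟩
      · intro e he
        apply k1
        unfold Zs
        simp [he]
      · apply k1
        unfold Zs
        simp
      · intro w hw
        exact (k2 w).1 hw
      · intro e he
        apply k1
        unfold Zs
        simp [he]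
      · apply k1
        unfold Zs
        simp
      · intro w hw
        exact (k2 w).2 hw
  · intro j ω ω' hj
    -- pairs `s(x, w)` with `w < N ≤ x` are not in `Zs`
    have key : ∀ x w : Fin n, N ≤ (x : ℕ) → (w : ℕ) < N → s(x, w) ∉ Zs I I' u v u' v' ∧
        (s(x, w) : Sym2 (Fin n)).inf = w := by
      intro x w hx hw
      constructor
      · unfold Zs
        simp only [Finset.mem_union, Finset.mem_insert, Finset.mem_singleton, mem_prs, not_or]
        refine ⟨⟨?_, ?_⟩, ?_, ?_⟩
        · rintro ⟨h1, -, -⟩
          have := hI x h1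
          omega
        · rintro ⟨h1, -, -⟩
          have := hI' x h1
          omega
        · intro h1
          rw [Sym2.eq_iff] at h1
          rcases h1 with ⟨rfl, rfl⟩ | ⟨rfl, rfl⟩ <;> omega
        · intro h1
          rw [Sym2.eq_iff] at h1
          rcases h1 with ⟨rfl, rfl⟩ | ⟨rfl, rfl⟩ <;> omega
      · rw [Sym2.inf_mk]
        apply inf_eq_right.2
        rw [Fin.le_def]
        omega
    rcases j with e | w
    · simp only [Sum.elim_inl]
      by_cases he : e ∈ Zs I I' u v u' v'
      · simp only [if_pos he]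
        rw [hj e (by rw [if_pos he])]
      · simp only [if_neg he]
    · simp only [Sum.elim_inr]
      have hco : ∀ x : Fin n, N ≤ (x : ℕ) → (w : ℕ) < N → ω s(x, w) = ω' s(x, w) := by
        intro x hx hw
        apply hj
        rw [if_neg (key x w hx hw).1, (key x w hx hw).2]
      have : Rw I I' u v u' v' w ω ↔ Rw I I' u v u' v' w ω' := by
        unfold Rw
        constructor
        · rintro ⟨h1, h2⟩
          refine ⟨fun hw => ?_, fun hw => ?_⟩
          · rw [← hco u hu (hI w hw), ← hco v hv (hI w hw)]
            exact h1 hw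
          · rw [← hco u' hu' (hI' w hw), ← hco v' hv' (hI' w hw)]
            exact h2 hw
        · rintro ⟨h1, h2⟩
          refine ⟨fun hw => ?_, fun hw => ?_⟩
          · rw [hco u hu (hI w hw), hco v hv (hI w hw)]
            exact h1 hw
          · rw [hco u' hu' (hI' w hw), hco v' hv' (hI' w hw)]
            exact h2 hw
      by_cases h1 : Rw I I' u v u' v' w ω
      · rw [if_pos h1, if_pos (this.1 h1)]
      · rw [if_neg h1, if_neg (fun h2 => h1 (this.2 h2))]

end Pool.Agent.Y417.BC
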