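import Pool.Agent.W839.Ch.Bits

/-!
# Probabilities of twin configurations over independent sets
-/

set_option autoImplicit false
open scoped Classical
open Finset Filter Topology

namespace Pool.Agent.Y417.BC

open Pool.Agent.W839.Ch

section general

variable {ι : Type} [Fintype ι]

/-- probability of a prescribed assignment on a set of coordinates -/
theorem EB_assign (p : ℝ) (S : Finset ι) (x : ι → Bool) :
    EB p (fun ω : ι → Bool => if ∀ i ∈ S, ω i = x i then (1 : ℝ) else 0)
      = ∏ i ∈ S, bw p (x i) := by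
  unfold EB
  have h1 : ∀ ω : ι → Bool, (∏ i, bw p (ω i)) * (if ∀ i ∈ S, ω i = x i then (1 : ℝ) else 0)
      = ∏ i, (bw p (ω i) * (if i ∈ S then (if ω i = x i then (1 : ℝ) else 0) else 1)) := by
    intro ω
    rw [Finset.prod_mul_distrib]
    congr 1
    by_cases h : ∀ i ∈ S, ω i = x i
    · rw [if_pos h]
      symm
      apply Finset.prod_eq_one
      intro i _
      by_cases hi : i ∈ S
      · rw [if_pos hi, if_pos (h i hi)]
      · rw [if_neg hi]
    · rw [if_neg h]
      push Not at h
      obtain ⟨i, hi, hne⟩ := h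
      symm
      apply Finset.prod_eq_zero (Finset.mem_univ i)
      rw [if_pos hi, if_neg hne]
  rw [Finset.sum_congr rfl (fun ω _ => h1 ω)]
  have h2 := Finset.prod_univ_sum (fun _ : ι => (Finset.univ : Finset Bool))
    (fun i b => bw p b * (if i ∈ S then (if b = x i then (1 : ℝ) else 0) else 1))
  rw [Fintype.piFinset_univ] at h2
  rw [← h2]
  have h3 : ∀ i : ι, ∑ b : Bool, bw p b * (if i ∈ S then (if b = x i then (1 : ℝ) else 0) else 1)
      = if i ∈ S then bw p (x i) else 1 := by
    intro i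
    by_cases hi : i ∈ S
    · simp only [if_pos hi]
      rw [Finset.sum_eq_single (x i)]
      · simp
      · intro b _ hb
        simp [hb]
      · simp
    · simp only [if_neg hi]
      simp [bw]
  rw [Finset.prod_congr rfl (fun i _ => h3 i), Finset.prod_ite_mem, Finset.univ_inter]

theorem EB_mono {p : ℝ} (h0 : 0 ≤ p) (h1 : p ≤ 1) {F G : (ι → Bool) → ℝ} (h : ∀ ω, F ω ≤ G ω) :
    EB p F ≤ EB p G := by
  unfold EB
  refine Finset.sum_le_sum (fun ω _ => ?_)
  refine mul_le_mul_of_nonneg_left (h ω) (Finset.prod_nonneg (fun i _ => ?_))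
  unfold bw
  split_ifs <;> linarith

theorem EB_nonneg {p : ℝ} (h0 : 0 ≤ p) (h1 : p ≤ 1) {F : (ι → Bool) → ℝ} (h : ∀ ω, 0 ≤ F ω) :
    0 ≤ EB p F := by
  unfold EB
  refine Finset.sum_nonneg (fun ω _ => mul_nonneg (Finset.prod_nonneg (fun i _ => ?_)) (h ω))
  unfold bw
  split_ifs <;> linarith

theorem EB_add (p : ℝ) (F G : (ι → Bool) → ℝ) :
    EB p (fun ω => F ω + G ω) = EB p F + EB p G := by
  unfold EB
  rw [← Finset.sum_add_distrib]
  exact Finset.sum_congr rfl (fun ω _ => by ring)

theorem EB_sum {κ : Type*} (p : ℝ) (s : Finset κ) (F : κ → (ι → Bool) → ℝ) :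
    EB p (fun ω => ∑ k ∈ s, F k ω) = ∑ k ∈ s, EB p (F k) := by
  unfold EB
  rw [Finset.sum_comm]
  exact Finset.sum_congr rfl (fun ω _ => by rw [Finset.mul_sum])

theorem EB_congr (p : ℝ) {F G : (ι → Bool) → ℝ} (h : ∀ ω, F ω = G ω) : EB p F = EB p G := by
  unfold EB
  exact Finset.sum_congr rfl (fun ω _ => by rw [h ω])

/-- all coordinates in `S` are equal -/
theorem EB_all_eq (p : ℝ) (S : Finset ι) (hS : S.Nonempty) :
    EB p (fun ω : ι → Bool => if (∀ i ∈ S, ∀ j ∈ S, ω i = ω j) then (1 : ℝ) else 0)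
      = p ^ S.card + (1 - p) ^ S.card := by
  have h1 : ∀ ω : ι → Bool, (if (∀ i ∈ S, ∀ j ∈ S, ω i = ω j) then (1 : ℝ) else 0)
      = (if ∀ i ∈ S, ω i = (fun _ : ι => true) i then (1 : ℝ) else 0)
        + (if ∀ i ∈ S, ω i = (fun _ : ι => false) i then (1 : ℝ) else 0) := by
    intro ω
    obtain ⟨a, ha⟩ := hS
    by_cases h : ∀ i ∈ S, ∀ j ∈ S, ω i = ω j
    · rw [if_pos h]
      cases hω : ω a
      · rw [if_neg, if_pos]
        · norm_num
        · intro i hi
          rw [h i hi a ha, hω]
        · intro h2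
          have := h2 a ha
          rw [hω] at this
          exact absurd this (by simp)
      · rw [if_pos, if_neg]
        · norm_num
        · intro h2
          have := h2 a ha
          rw [hω] at this
          exact absurd this (by simp)
        · intro i hi
          rw [h i hi a ha, hω]
    · rw [if_neg h, if_neg, if_neg]
      · norm_num
      · intro h2
        apply h
        intro i hi j hj
        rw [h2 i hi, h2 j hj]
      · intro h2
        apply h
        intro i hi j hj
        rw [h2 i hi, h2 j hj]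
  rw [EB_congr p h1, EB_add, EB_assign, EB_assign, Finset.prod_const, Finset.prod_const]
  simp [bw]

theorem EB_two {p : ℝ} {a b : ι} (hab : a ≠ b) :
    EB p (fun ω : ι → Bool => if ω a = ω b then (1 : ℝ) else 0) = p ^ 2 + (1 - p) ^ 2 := by
  have h := EB_all_eq p ({a, b} : Finset ι) ⟨a, by simp⟩
  rw [Finset.card_pair hab] at h
  rw [← h]
  refine EB_congr p (fun ω => ?_)
  congr 1
  simp only [Finset.mem_insert, Finset.mem_singleton, forall_eq_or_imp, forall_eq, eq_iff_iff]
  constructor
  · intro h; simp [h]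
  · intro h; exact h.1.2

theorem EB_three {p : ℝ} {a b c : ι} (hab : a ≠ b) (hac : a ≠ c) (hbc : b ≠ c) :
    EB p (fun ω : ι → Bool => if ω a = ω b ∧ ω a = ω c then (1 : ℝ) else 0)
      = p ^ 3 + (1 - p) ^ 3 := by
  have h := EB_all_eq p ({a, b, c} : Finset ι) ⟨a, by simp⟩
  rw [Finset.card_eq_three.2 ⟨a, b, c, hab, hac, hbc, rfl⟩] at h
  rw [← h]
  refine EB_congr p (fun ω => ?_)
  congr 1
  simp only [Finset.mem_insert, Finset.mem_singleton, forall_eq_or_imp, forall_eq, eq_iff_iff]
  constructor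
  · rintro ⟨h1, h2⟩; simp [← h1, ← h2]
  · intro h; exact ⟨h.1.2.1, h.1.2.2⟩

theorem EB_four {p : ℝ} {a b c d : ι} (hab : a ≠ b) (hac : a ≠ c) (had : a ≠ d) (hbc : b ≠ c)
    (hbd : b ≠ d) (hcd : c ≠ d) :
    EB p (fun ω : ι → Bool => if ω a = ω b ∧ ω c = ω d then (1 : ℝ) else 0)
      = (p ^ 2 + (1 - p) ^ 2) ^ 2 := by
  have h := blk ι Bool p (fun i => if i = a ∨ i = b then some true
      else if i = c ∨ i = d then some false else none)
    (fun j ω => if j = true then (if ω a = ω b then (1 : ℝ) else 0)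
      else (if ω c = ω d then (1 : ℝ) else 0)) ?_
  · rw [Fintype.prod_bool] at h
    simp only [if_true, Bool.false_eq_true, if_false] at h
    rw [EB_two hab, EB_two hcd] at h
    rw [sq (p ^ 2 + (1 - p) ^ 2), ← h]
    refine EB_congr p (fun ω => ?_)
    rw [Fintype.prod_bool]
    by_cases h1 : ω a = ω b <;> by_cases h2 : ω c = ω d <;> simp [h1, h2]
  · intro j ω ω' hj
    cases j
    · simp only [Bool.false_eq_true, if_false]
      rw [hj c, hj d]
      · rw [if_neg, if_pos (Or.inr rfl)]
        rintro (h1 | h1)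
        · exact had h1.symm
        · exact hbd h1.symm
      · rw [if_neg, if_pos (Or.inl rfl)]
        rintro (h1 | h1)
        · exact hac h1.symm
        · exact hbc h1.symm
    · simp only [if_true]
      rw [hj a, hj b]
      · rw [if_pos (Or.inr rfl)]
      · rw [if_pos (Or.inl rfl)]

end general

end Pool.Agent.Y417.BC
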