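import Pool.Agent.Y417.BC.Val

/-!
# The second moment
-/

set_option autoImplicit false
open scoped Classical
open Finset Filter Topology

namespace Pool.Agent.Y417.BC

open Pool.Agent.W839.Ch

variable {n : ℕ}

noncomputable def sS (p : ℝ) : ℝ := p ^ 2 + (1 - p) ^ 2
noncomputable def tT (p : ℝ) : ℝ := p ^ 3 + (1 - p) ^ 3

/-- probability of one twin configuration -/
noncomputable def mu1 (p : ℝ) (b : ℕ) : ℝ := (1 - p) ^ (b.choose 2 + 1) * sS p ^ b

theorem sS_pos {p : ℝ} (h1 : p < 1) : 0 < sS p := by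
  unfold sS
  have : 0 < 1 - p := by linarith
  positivity

theorem tT_pos {p : ℝ} (h0 : 0 < p) (h1 : p < 1) : 0 < tT p := by
  unfold tT
  have : 0 < 1 - p := by linarith
  positivity

theorem mu1_pos {p : ℝ} (h1 : p < 1) (b : ℕ) : 0 < mu1 p b := by
  unfold mu1
  have : 0 < 1 - p := by linarith
  have := sS_pos h1
  positivity

/-- the single event -/
theorem prob_single (p : ℝ) (N b : ℕ) (I : Finset (Fin n)) (u v : Fin n)
    (hI : ∀ w ∈ I, (w : ℕ) < N) (hIb : I.card = b) (hu : N ≤ (u : ℕ)) (hv : N ≤ (v : ℕ))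
    (huv : u ≠ v) :
    EB p (fun ω => if Tw I u v ω then (1 : ℝ) else 0) = mu1 p b := by
  have h := joint p N I I u v u v hI hI hu hv hu hv
  rw [prod_Rw p (p ^ 2 + (1 - p) ^ 2) N I I u v u v hI hI hu hu huv huv
    (kappa_same p N I I u v hI hu huv)] at h
  have hc := card_Zs N I I u v u v hI hI hu hu
  rw [Finset.inter_self, hIb] at hc
  simp only [Finset.mem_singleton, Finset.insert_eq_of_mem, Finset.card_singleton] at hc
  have hc2 : (Zs I I u v u v).card = b.choose 2 + 1 := by omega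
  rw [hc2, Finset.inter_self, hIb, Finset.sdiff_self, Finset.card_empty, pow_zero, mul_one,
    mul_one] at h
  unfold mu1 sS
  rw [← h]
  refine EB_congr p (fun ω => ?_)
  simp

/-- the factor of a pair of events -/
noncomputable def phi (p : ℝ) (j : ℕ) (u v u' v' : Fin n) : ℝ :=
  (if u = u' ∧ v = v' then 1 / ((1 - p) * sS p ^ j) else 0)
    + (if u = u' then (tT p / sS p ^ 2) ^ j else 0)
    + (if v = v' then (tT p / sS p ^ 2) ^ j else 0) + 1

theorem prob_pair {p : ℝ} (h0 : 0 < p) (h1 : p < 1) (N M b : ℕ) (I I' : Finset (Fin n))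
    (u v u' v' : Fin n)
    (hI : ∀ w ∈ I, (w : ℕ) < N) (hI' : ∀ w ∈ I', (w : ℕ) < N) (hIb : I.card = b)
    (hIb' : I'.card = b) (hu : N ≤ (u : ℕ)) (hv : N ≤ (v : ℕ)) (hu' : N ≤ (u' : ℕ))
    (hv' : N ≤ (v' : ℕ)) (huM : (u : ℕ) < M) (huM' : (u' : ℕ) < M)
    (hvM : M ≤ (v : ℕ)) (hvM' : M ≤ (v' : ℕ)) :
    EB p (fun ω => if Tw I u v ω ∧ Tw I' u' v' ω then (1 : ℝ) else 0)
      ≤ mu1 p b ^ 2 * (((1 - p) ^ ((I ∩ I').card.choose 2))⁻¹ * phi p (I ∩ I').card u v u' v') := by
  have hq : 0 < 1 - p := by linarith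
  have hs := sS_pos h1
  have ht := tT_pos h0 h1
  have hsS : p ^ 2 + (1 - p) ^ 2 = sS p := rfl
  have htT : p ^ 3 + (1 - p) ^ 3 = tT p := rfl
  have huv : u ≠ v := by rintro rfl; omega
  have huv' : u ≠ v' := by rintro rfl; omega
  have hu'v : u' ≠ v := by rintro rfl; omega
  have hu'v' : u' ≠ v' := by rintro rfl; omega
  have h := joint p N I I' u v u' v' hI hI' hu hv hu' hv'
  have hc := card_Zs N I I' u v u' v' hI hI' hu hu'
  rw [hIb, hIb'] at hc
  set j := (I ∩ I').card with hj
  have hd1 : (I \ I').card + j = b := by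
    rw [hj, ← hIb, Finset.card_sdiff_add_card_inter]
  have hd2 : (I' \ I).card + j = b := by
    rw [hj, ← hIb', Finset.inter_comm, Finset.card_sdiff_add_card_inter]
  -- general identity
  have key : ∀ (κ x : ℝ) (d : ℕ), (Zs I I' u v u' v').card + j.choose 2 = b.choose 2 + b.choose 2 + d →
      (1 - p) ^ d * κ ^ j = (1 - p) ^ 2 * (sS p) ^ (2 * j) * x →
      (1 - p) ^ (Zs I I' u v u' v').card * (κ ^ j * sS p ^ (I \ I').card * sS p ^ (I' \ I).card)
        = mu1 p b ^ 2 * (((1 - p) ^ (j.choose 2))⁻¹ * x) := by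
    intro κ x d hz hx
    have e1 : (1 - p) ^ (Zs I I' u v u' v').card
        = (1 - p) ^ (b.choose 2) * (1 - p) ^ (b.choose 2) * (1 - p) ^ d
          * ((1 - p) ^ (j.choose 2))⁻¹ := by
      rw [eq_mul_inv_iff_mul_eq₀ (by positivity), ← pow_add, ← pow_add, ← pow_add, hz]
    have e2 : sS p ^ b = sS p ^ (I \ I').card * sS p ^ j := by
      rw [← pow_add, hd1]
    have e3 : sS p ^ b = sS p ^ (I' \ I).card * sS p ^ j := by
      rw [← pow_add, hd2]
    have e4 : mu1 p b ^ 2 = (1 - p) ^ (b.choose 2) * (1 - p) ^ (b.choose 2) * (1 - p) ^ 2 *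
        ((sS p ^ (I \ I').card * sS p ^ j) * (sS p ^ (I' \ I).card * sS p ^ j)) := by
      rw [← e2, ← e3]
      unfold mu1
      ring
    rw [e4, e1]
    have e5 : (sS p) ^ (2 * j) = sS p ^ j * sS p ^ j := by
      rw [← pow_add]; congr 1; ring
    rw [e5] at hx
    calc (1 - p) ^ (b.choose 2) * (1 - p) ^ (b.choose 2) * (1 - p) ^ d * ((1 - p) ^ (j.choose 2))⁻¹
          * (κ ^ j * sS p ^ (I \ I').card * sS p ^ (I' \ I).card)
        = (1 - p) ^ (b.choose 2) * (1 - p) ^ (b.choose 2) * ((1 - p) ^ (j.choose 2))⁻¹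
          * (sS p ^ (I \ I').card * sS p ^ (I' \ I).card) * ((1 - p) ^ d * κ ^ j) := by ring
      _ = _ := by rw [hx]; ring
  rw [h]
  by_cases e1 : u = u'
  · subst e1
    by_cases e2 : v = v'
    · subst e2
      rw [prod_Rw p (p ^ 2 + (1 - p) ^ 2) N I I' u v u v hI hI' hu hu huv huv
        (kappa_same p N I I' u v hI hu huv)]
      simp only [Finset.mem_singleton, Finset.insert_eq_of_mem, Finset.card_singleton] at hc
      have := key (sS p) (1 / ((1 - p) * sS p ^ j)) 1 hc (by
        field_simp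
        ring)
      rw [hsS, ← hj, this]
      refine mul_le_mul_of_nonneg_left (mul_le_mul_of_nonneg_left ?_ (by positivity)) (by positivity)
      unfold phi
      rw [if_pos ⟨rfl, rfl⟩, if_pos rfl, if_pos rfl]
      have : 0 ≤ (tT p / sS p ^ 2) ^ j := by positivity
      linarith
    · have hne : s(u, v) ≠ s(u, v') := by
        intro hh
        rw [Sym2.eq_iff] at hh
        rcases hh with ⟨-, hh⟩ | ⟨hh, -⟩
        · exact e2 hh
        · exact huv' hh
      rw [Finset.card_pair hne] at hc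
      rw [prod_Rw p (p ^ 3 + (1 - p) ^ 3) N I I' u v u v' hI hI' hu hu huv huv'
        (kappa_left p N I I' u v v' hI hu hv huv huv' e2)]
      have := key (tT p) ((tT p / sS p ^ 2) ^ j) 2 hc (by
        rw [div_pow, ← pow_mul]
        field_simp)
      rw [hsS, htT, ← hj, this]
      refine mul_le_mul_of_nonneg_left (mul_le_mul_of_nonneg_left ?_ (by positivity)) (by positivity)
      unfold phi
      rw [if_neg (fun h => e2 h.2), if_pos rfl, if_neg e2]
      linarith
  · by_cases e2 : v = v'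
    · subst e2
      have hne : s(u, v) ≠ s(u', v) := by
        intro hh
        rw [Sym2.eq_iff] at hh
        rcases hh with ⟨hh, -⟩ | ⟨hh, -⟩
        · exact e1 hh
        · exact huv hh
      rw [Finset.card_pair hne] at hc
      rw [prod_Rw p (p ^ 3 + (1 - p) ^ 3) N I I' u v u' v hI hI' hu hu' huv hu'v
        (kappa_right p N I I' u u' v hI hu hv huv hu'v e1)]
      have := key (tT p) ((tT p / sS p ^ 2) ^ j) 2 hc (by
        rw [div_pow, ← pow_mul]
        field_simp)
      rw [hsS, htT, ← hj, this]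
      refine mul_le_mul_of_nonneg_left (mul_le_mul_of_nonneg_left ?_ (by positivity)) (by positivity)
      unfold phi
      rw [if_neg (fun h => e1 h.1), if_neg e1, if_pos rfl]
      linarith
    · have hne : s(u, v) ≠ s(u', v') := by
        intro hh
        rw [Sym2.eq_iff] at hh
        rcases hh with ⟨hh, -⟩ | ⟨hh, -⟩
        · exact e1 hh
        · exact huv' hh
      rw [Finset.card_pair hne] at hc
      rw [prod_Rw p ((p ^ 2 + (1 - p) ^ 2) ^ 2) N I I' u v u' v' hI hI' hu hu' huv hu'v'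
        (kappa_diff p N I I' u v u' v' hI hu hv hu' huv huv' hu'v.symm hu'v' e1 e2)]
      have := key (sS p ^ 2) 1 2 hc (by
        rw [← pow_mul]
        ring)
      rw [hsS, ← hj, this]
      refine mul_le_mul_of_nonneg_left (mul_le_mul_of_nonneg_left ?_ (by positivity)) (by positivity)
      unfold phi
      rw [if_neg (fun h => e1 h.1), if_neg e1, if_neg e2]
      linarith

end Pool.Agent.Y417.BC
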