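import Pool.Agent.Y417.BC.Cheb
import Pool.Agent.Y417.BC.Det

/-!
# The probability that the trivial bound is attained
-/

set_option autoImplicit false
open scoped Classical
open Finset Filter Topology

namespace Pool.Agent.Y417.BC

open Pool.Agent.W839.Ch

variable {n : ℕ}

/-- the probability in the frozen statement -/
noncomputable def PP (p : ℝ) (n : ℕ) : ℝ :=
  ∑ G : SimpleGraph (Fin n), if sInf (bcSet G) = n - Gᶜ.cliqueNum
    then p ^ G.edgeFinset.card * (1 - p) ^ (n.choose 2 - G.edgeFinset.card) else 0

/-- no edges inside `J` -/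
def NoE (J : Finset (Fin n)) (ω : Sym2 (Fin n) → Bool) : Prop := ∀ e ∈ prs J, ω e = false

theorem prob_noE (p : ℝ) (J : Finset (Fin n)) :
    EB p (fun ω : Sym2 (Fin n) → Bool => if NoE J ω then (1 : ℝ) else 0)
      = (1 - p) ^ (J.card.choose 2) := by
  have h := EB_assign p (prs J) (fun _ => false)
  rw [Finset.prod_const, card_prs] at h
  have h2 : bw p false = 1 - p := by simp [bw]
  rw [h2] at h
  rw [← h]
  refine EB_congr p (fun ω => ?_)
  by_cases hN : NoE J ω
  · rw [if_pos hN, if_pos]
    exact hN
  · rw [if_neg hN, if_neg]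
    exact hN

theorem upper {p : ℝ} (h0 : 0 < p) (h1 : p < 1) (N m b : ℕ) :
    PP p n ≤ ((n.choose (b + 1) : ℕ) : ℝ) * (1 - p) ^ ((b + 1).choose 2)
      + EB p (fun ω : Sym2 (Fin n) → Bool =>
        if ∀ I ∈ (ivl n 0 N).powersetCard b, ∀ u ∈ ivl n N (N + m), ∀ v ∈ ivl n (N + m) (N + 2 * m),
          ¬ Tw I u v ω then (1 : ℝ) else 0) := by
  have hq : 0 < 1 - p := by linarith
  have e1 : PP p n = EB p (fun ω : Sym2 (Fin n) → Bool =>
      if sInf (bcSet (gr ω)) = n - (gr ω)ᶜ.cliqueNum then (1 : ℝ) else 0) := by
    rw [bit n p (fun G => if sInf (bcSet G) = n - Gᶜ.cliqueNum then (1 : ℝ) else 0)]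
    unfold PP wt
    refine Finset.sum_congr rfl (fun G _ => ?_)
    by_cases h : sInf (bcSet G) = n - Gᶜ.cliqueNum
    · rw [if_pos h, if_pos h, mul_one]
    · rw [if_neg h, if_neg h, mul_zero]
  rw [e1]
  have e2 : ∀ J ∈ (Finset.univ : Finset (Fin n)).powersetCard (b + 1),
      EB p (fun ω : Sym2 (Fin n) → Bool => if NoE J ω then (1 : ℝ) else 0)
        = (1 - p) ^ ((b + 1).choose 2) := by
    intro J hJ
    rw [prob_noE, (Finset.mem_powersetCard.1 hJ).2]
  have e3 : ((n.choose (b + 1) : ℕ) : ℝ) * (1 - p) ^ ((b + 1).choose 2)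
      = EB p (fun ω : Sym2 (Fin n) → Bool => ∑ J ∈ (Finset.univ : Finset (Fin n)).powersetCard (b + 1),
        if NoE J ω then (1 : ℝ) else 0) := by
    rw [EB_sum, Finset.sum_congr rfl e2, Finset.sum_const, Finset.card_powersetCard,
      Finset.card_univ, Fintype.card_fin, nsmul_eq_mul]
  rw [e3, ← EB_add]
  refine EB_mono h0.le h1.le (fun ω => ?_)
  have hn1 : (0 : ℝ) ≤ ∑ J ∈ (Finset.univ : Finset (Fin n)).powersetCard (b + 1),
        if NoE J ω then (1 : ℝ) else 0 :=
    Finset.sum_nonneg (fun J _ => by positivity)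
  by_cases hP : sInf (bcSet (gr ω)) = n - (gr ω)ᶜ.cliqueNum
  · rw [if_pos hP]
    by_cases hT : ∀ I ∈ (ivl n 0 N).powersetCard b, ∀ u ∈ ivl n N (N + m),
        ∀ v ∈ ivl n (N + m) (N + 2 * m), ¬ Tw I u v ω
    · rw [if_pos hT]
      linarith
    · rw [if_neg hT, add_zero]
      push Not at hT
      obtain ⟨I, hI, u, hu, v, hv, hTw⟩ := hT
      rw [Finset.mem_powersetCard] at hI
      rw [mem_ivl] at hu hv
      obtain ⟨t1, t2, t3⟩ := hTw
      by_cases hJ : ∃ J ∈ (Finset.univ : Finset (Fin n)).powersetCard (b + 1), NoE J ω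
      · obtain ⟨J, hJm, hJe⟩ := hJ
        have h := Finset.single_le_sum (f := fun J : Finset (Fin n) =>
          if NoE J ω then (1 : ℝ) else 0)
          (fun J _ => by positivity) hJm
        simp only [if_pos hJe] at h
        exact h
      · exfalso
        push Not at hJ
        refine bc_ne (gr ω) b ?_ I hI.2 u v ?_ ?_ ?_ ?_ ?_ ?_ hP
        · intro J hJc
          have hJ2 := hJ J (Finset.mem_powersetCard.2 ⟨Finset.subset_univ _, hJc⟩)
          unfold NoE at hJ2
          push Not at hJ2
          obtain ⟨e, he, hne⟩ := hJ2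
          induction e with
          | _ x y =>
            rw [mem_prs] at he
            refine ⟨x, he.1, y, he.2.1, he.2.2, he.2.2, ?_⟩
            simpa using hne
        · intro h
          have := (mem_ivl.1 (hI.1 h)).2
          omega
        · intro h
          have := (mem_ivl.1 (hI.1 h)).2
          omega
        · rintro rfl
          omega
        · intro x hx y hy hadj
          have := t1 s(x, y) (mem_prs.2 ⟨hx, hy, hadj.1⟩)
          have h2 := hadj.2
          rw [this] at h2
          exact absurd h2 (by simp)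
        · intro hadj
          have h2 := hadj.2
          rw [t2] at h2
          exact absurd h2 (by simp)
        · intro w hw
          have hw2 := (mem_ivl.1 (hI.1 hw)).2
          have huw : u ≠ w := by
            rintro rfl
            omega
          have hvw : v ≠ w := by
            rintro rfl
            omega
          constructor
          · intro h
            refine ⟨hvw, ?_⟩
            rw [← t3 w hw]
            exact h.2
          · intro h
            refine ⟨huw, ?_⟩
            rw [t3 w hw]
            exact h.2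
  · rw [if_neg hP]
    positivity

end Pool.Agent.Y417.BC
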