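import Pool.Agent.Y417.BC.Joint

/-!
# Values of the joint probabilities
-/

set_option autoImplicit false
open scoped Classical
open Finset Filter Topology

namespace Pool.Agent.Y417.BC

open Pool.Agent.W839.Ch

variable {n : ℕ}

theorem ne_pair {x y w z : Fin n} (hxy : x ≠ y) (hxz : x ≠ z) : s(x, w) ≠ s(y, z) := by
  intro h
  rw [Sym2.eq_iff] at h
  rcases h with ⟨h, -⟩ | ⟨h, -⟩
  · exact hxy h
  · exact hxz h

theorem prod_Rw (p κ : ℝ) (N : ℕ) (I I' : Finset (Fin n)) (u v u' v' : Fin n)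
    (hI : ∀ w ∈ I, (w : ℕ) < N) (hI' : ∀ w ∈ I', (w : ℕ) < N)
    (hu : N ≤ (u : ℕ)) (hu' : N ≤ (u' : ℕ))
    (huv : u ≠ v) (huv' : u' ≠ v')
    (hκ : ∀ w ∈ I ∩ I', EB p (fun ω => if Rw I I' u v u' v' w ω then (1 : ℝ) else 0) = κ) :
    ∏ w : Fin n, EB p (fun ω => if Rw I I' u v u' v' w ω then (1 : ℝ) else 0)
      = κ ^ (I ∩ I').card * (p ^ 2 + (1 - p) ^ 2) ^ (I \ I').card *
        (p ^ 2 + (1 - p) ^ 2) ^ (I' \ I).card := by
  have h1 : ∀ w : Fin n, EB p (fun ω => if Rw I I' u v u' v' w ω then (1 : ℝ) else 0)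
      = (if w ∈ I ∩ I' then κ else 1) * (if w ∈ I \ I' then (p ^ 2 + (1 - p) ^ 2) else 1) *
        (if w ∈ I' \ I then (p ^ 2 + (1 - p) ^ 2) else 1) := by
    intro w
    by_cases h1 : w ∈ I
    · by_cases h2 : w ∈ I'
      · rw [hκ w (Finset.mem_inter.2 ⟨h1, h2⟩)]
        simp [h1, h2]
      · simp only [Finset.mem_inter, h1, h2, and_false, if_false, Finset.mem_sdiff,
          not_false_eq_true, and_self, if_true, not_true, one_mul, mul_one]
        rw [← EB_two (p := p) (a := s(u, w)) (b := s(v, w)) ?_]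
        · refine EB_congr p (fun ω => ?_)
          congr 1
          unfold Rw
          simp [h1, h2]
        · apply ne_pair huv
          intro h
          have := hI w h1
          rw [← h] at this
          omega
    · by_cases h2 : w ∈ I'
      · simp only [Finset.mem_inter, h1, h2, false_and, if_false, Finset.mem_sdiff,
          not_false_eq_true, and_self, if_true, not_true, one_mul]
        rw [← EB_two (p := p) (a := s(u', w)) (b := s(v', w)) ?_]
        · refine EB_congr p (fun ω => ?_)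
          congr 1
          unfold Rw
          simp [h1, h2]
        · apply ne_pair huv'
          intro h
          have := hI' w h2
          rw [← h] at this
          omega
      · simp only [Finset.mem_inter, h1, h2, false_and, if_false, Finset.mem_sdiff,
          mul_one]
        refine Eq.trans (EB_congr p (fun ω => ?_)) (EB_one (ι := Sym2 (Fin n)) p)
        unfold Rw
        simp [h1, h2]
  rw [Finset.prod_congr rfl (fun w _ => h1 w), Finset.prod_mul_distrib, Finset.prod_mul_distrib,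
    Finset.prod_ite_mem, Finset.prod_ite_mem, Finset.prod_ite_mem, Finset.univ_inter,
    Finset.univ_inter, Finset.univ_inter, Finset.prod_const, Finset.prod_const, Finset.prod_const]

theorem kappa_same (p : ℝ) (N : ℕ) (I I' : Finset (Fin n)) (u v : Fin n)
    (hI : ∀ w ∈ I, (w : ℕ) < N)
    (hu : N ≤ (u : ℕ)) (huv : u ≠ v) :
    ∀ w ∈ I ∩ I', EB p (fun ω => if Rw I I' u v u v w ω then (1 : ℝ) else 0)
      = p ^ 2 + (1 - p) ^ 2 := by
  intro w hw
  rw [Finset.mem_inter] at hw
  rw [← EB_two (p := p) (a := s(u, w)) (b := s(v, w)) ?_]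
  · refine EB_congr p (fun ω => ?_)
    congr 1
    unfold Rw
    simp [hw.1, hw.2]
  · apply ne_pair huv
    intro h
    have := hI w hw.1
    rw [← h] at this
    omega

theorem kappa_left (p : ℝ) (N : ℕ) (I I' : Finset (Fin n)) (u v v' : Fin n)
    (hI : ∀ w ∈ I, (w : ℕ) < N)
    (hu : N ≤ (u : ℕ)) (hv : N ≤ (v : ℕ)) (huv : u ≠ v) (huv' : u ≠ v') (hvv' : v ≠ v') :
    ∀ w ∈ I ∩ I', EB p (fun ω => if Rw I I' u v u v' w ω then (1 : ℝ) else 0)
      = p ^ 3 + (1 - p) ^ 3 := by
  intro w hw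
  rw [Finset.mem_inter] at hw
  have huw : u ≠ w := by
    intro h
    have := hI w hw.1
    rw [← h] at this
    omega
  have hvw : v ≠ w := by
    intro h
    have := hI w hw.1
    rw [← h] at this
    omega
  rw [← EB_three (p := p) (a := s(u, w)) (b := s(v, w)) (c := s(v', w)) (ne_pair huv huw)
    (ne_pair huv' huw) (ne_pair hvv' hvw)]
  refine EB_congr p (fun ω => ?_)
  congr 1
  unfold Rw
  simp [hw.1, hw.2]

theorem kappa_right (p : ℝ) (N : ℕ) (I I' : Finset (Fin n)) (u u' v : Fin n)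
    (hI : ∀ w ∈ I, (w : ℕ) < N)
    (hu : N ≤ (u : ℕ)) (hv : N ≤ (v : ℕ)) (huv : u ≠ v) (huv' : u' ≠ v) (huu' : u ≠ u') :
    ∀ w ∈ I ∩ I', EB p (fun ω => if Rw I I' u v u' v w ω then (1 : ℝ) else 0)
      = p ^ 3 + (1 - p) ^ 3 := by
  intro w hw
  rw [Finset.mem_inter] at hw
  have huw : u ≠ w := by
    intro h
    have := hI w hw.1
    rw [← h] at this
    omega
  have hvw : v ≠ w := by
    intro h
    have := hI w hw.1
    rw [← h] at this
    omega
  rw [← EB_three (p := p) (a := s(v, w)) (b := s(u, w)) (c := s(u', w)) (ne_pair huv.symm hvw)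
    (ne_pair huv'.symm hvw) (ne_pair huu' huw)]
  refine EB_congr p (fun ω => ?_)
  congr 1
  unfold Rw
  simp only [hw.1, hw.2, forall_const, eq_iff_iff]
  constructor
  · rintro ⟨h1, h2⟩; exact ⟨h1.symm, h2.symm⟩
  · rintro ⟨h1, h2⟩; exact ⟨h1.symm, h2.symm⟩

theorem kappa_diff (p : ℝ) (N : ℕ) (I I' : Finset (Fin n)) (u v u' v' : Fin n)
    (hI : ∀ w ∈ I, (w : ℕ) < N)
    (hu : N ≤ (u : ℕ)) (hv : N ≤ (v : ℕ)) (hu' : N ≤ (u' : ℕ)) (huv : u ≠ v) (huv' : u ≠ v')
    (hvu' : v ≠ u') (huv2 : u' ≠ v') (huu' : u ≠ u') (hvv' : v ≠ v') :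
    ∀ w ∈ I ∩ I', EB p (fun ω => if Rw I I' u v u' v' w ω then (1 : ℝ) else 0)
      = (p ^ 2 + (1 - p) ^ 2) ^ 2 := by
  intro w hw
  rw [Finset.mem_inter] at hw
  have huw : u ≠ w := by
    intro h
    have := hI w hw.1
    rw [← h] at this
    omega
  have hvw : v ≠ w := by
    intro h
    have := hI w hw.1
    rw [← h] at this
    omega
  have huw' : u' ≠ w := by
    intro h
    have := hI w hw.1
    rw [← h] at this
    omega
  rw [← EB_four (p := p) (a := s(u, w)) (b := s(v, w)) (c := s(u', w)) (d := s(v', w))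
    (ne_pair huv huw) (ne_pair huu' huw) (ne_pair huv' huw) (ne_pair hvu' hvw) (ne_pair hvv' hvw)
    (ne_pair huv2 huw')]
  refine EB_congr p (fun ω => ?_)
  congr 1
  unfold Rw
  simp [hw.1, hw.2]

/-- the number of pairs in the union -/
theorem card_union_prs (I I' : Finset (Fin n)) :
    (prs I ∪ prs I').card + (I ∩ I').card.choose 2 = I.card.choose 2 + I'.card.choose 2 := by
  have h := Finset.card_union_add_card_inter (prs I) (prs I')
  rw [prs_inter, card_prs, card_prs, card_prs] at h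
  exact h

theorem card_Zs (N : ℕ) (I I' : Finset (Fin n)) (u v u' v' : Fin n)
    (hI : ∀ w ∈ I, (w : ℕ) < N) (hI' : ∀ w ∈ I', (w : ℕ) < N)
    (hu : N ≤ (u : ℕ)) (hu' : N ≤ (u' : ℕ)) :
    (Zs I I' u v u' v').card + (I ∩ I').card.choose 2
      = I.card.choose 2 + I'.card.choose 2 + ({s(u, v), s(u', v')} : Finset (Sym2 (Fin n))).card := by
  unfold Zs
  rw [Finset.card_union_of_disjoint]
  · have := card_union_prs I I'
    omega
  · rw [Finset.disjoint_left]
    intro e he he2
    rw [Finset.mem_union] at he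
    rw [Finset.mem_insert, Finset.mem_singleton] at he2
    rcases he2 with rfl | rfl
    · rcases he with he | he
      · have := hI u (mem_prs.1 he).1
        omega
      · have := hI' u (mem_prs.1 he).1
        omega
    · rcases he with he | he
      · have := hI u' (mem_prs.1 he).1
        omega
      · have := hI' u' (mem_prs.1 he).1
        omega

end Pool.Agent.Y417.BC
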